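import Pool.Agent.J4H64.PC.Over

set_option autoImplicit false
set_option linter.unusedSectionVars false

/-!
Counting the permutations which are bad for one conjunction.
-/

namespace Pool.Agent.J4H64.PC

open Finset DomAC0 Pool.Agent.J4H64.VC Pool.Agent.J4H64.LS
open scoped Classical

variable {n : ℕ}

theorem mc {ε : Type} {R : Fin n → Fin n → Prop} {d : ℕ}
    (hR : ∀ a, ∀ S : Finset (Fin n), (∀ b ∈ S, R a b) → S.card ≤ d) (x y : ε → Fin n) (M : Finset ε)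
    (hxy : ∀ e ∈ M, x e ≠ y e) (hM : ∀ e ∈ M, ∀ f ∈ M, e ≠ f → y e ≠ x f ∧ y e ≠ y f)
    (ρ : ℝ) (hρ : 0 ≤ ρ) (hn : 2 * M.card < n)
    (hd : (d : ℝ) ≤ ρ * ((n - 2 * M.card : ℕ) : ℝ))
    (T : Finset (Equiv.Perm (Fin n))) (hT : ∀ π ∈ T, ∀ e ∈ M, R (π (x e)) (π (y e))) :
    (T.card : ℝ) ≤ n.factorial * ρ ^ M.card := by
  have h1 := match_count' (R := R) (fun a => hR a _ fun b hb => (mem_filter.1 hb).2) (fun e : {e // e ∈ M} => x e.1) (fun e => y e.1)
    (fun e => hxy e.1 e.2) M.card M.attach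
    (fun e _ f _ hef => hM e.1 e.2 f.1 f.2 fun h => hef (Subtype.ext h))
    (by rw [card_attach]) T (fun π hπ e _ => hT π hπ e.1 e.2)
  rw [card_attach, Fintype.card_fin] at h1
  have hA : (0 : ℝ) < ((n - 2 * M.card : ℕ) : ℝ) := by exact_mod_cast (by omega : 0 < n - 2 * M.card)
  have h2 : (T.card : ℝ) * ((n - 2 * M.card : ℕ) : ℝ) ^ M.card ≤ n.factorial * (d : ℝ) ^ M.card := by
    exact_mod_cast h1
  have h3 : (d : ℝ) ^ M.card ≤ ρ ^ M.card * ((n - 2 * M.card : ℕ) : ℝ) ^ M.card := by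
    rw [← mul_pow]
    exact pow_le_pow_left₀ (Nat.cast_nonneg _) hd _
  have h4 : (T.card : ℝ) * ((n - 2 * M.card : ℕ) : ℝ) ^ M.card ≤
      (n.factorial * ρ ^ M.card) * ((n - 2 * M.card : ℕ) : ℝ) ^ M.card := by
    refine h2.trans ?_
    rw [mul_assoc]
    exact mul_le_mul_of_nonneg_left h3 (Nat.cast_nonneg _)
  exact le_of_mul_le_mul_right h4 (pow_pos hA _)

theorem p1_ne_p2 (e : Pairs n) : p1 e ≠ p2 e := ne_of_lt e.2

/-- the hubs are avoided -/
theorem card_avoid (Z₀ U : Finset (Fin n)) (ρ : ℝ) (hρ : 0 ≤ ρ) (hn : 2 * U.card < n)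
    (hd : ((n - Z₀.card : ℕ) : ℝ) ≤ ρ * ((n - 2 * U.card : ℕ) : ℝ)) :
    ((univ.filter fun π : Equiv.Perm (Fin n) => ∀ u ∈ U, π u ∉ Z₀).card : ℝ) ≤
      n.factorial * ρ ^ U.card := by
  obtain ⟨a₀, ha₀⟩ : ∃ a₀, a₀ ∉ U := by
    by_contra hcon
    push Not at hcon
    have h1 : U = univ := eq_univ_of_forall hcon
    rw [h1, card_univ, Fintype.card_fin] at hn
    omega
  refine mc (R := fun _ b => b ∉ Z₀) (d := n - Z₀.card) (fun a S hS => ?_) (fun _ => a₀) (fun u => u) U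
    (fun e he h => ha₀ (h ▸ he)) (fun e he f hf hef => ⟨fun h => ha₀ (h ▸ he), hef⟩) ρ hρ hn hd _
    (fun π hπ e he => (mem_filter.1 hπ).2 e he)
  refine le_trans (card_le_card (t := Z₀ᶜ) fun b hb => mem_compl.2 (hS b hb)) ?_
  rw [card_compl, Fintype.card_fin]

/-- a compatible matching inside a small set -/
theorem card_small {R : Fin n → Fin n → Prop} {d : ℕ}
    (hR : ∀ a, ∀ S : Finset (Fin n), (∀ b ∈ S, R a b) → S.card ≤ d) (F : Finset (Pairs n)) (m : ℕ)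
    (ρ : ℝ) (hρ : 0 ≤ ρ) (hn : 2 * m < n) (hd : (d : ℝ) ≤ ρ * ((n - 2 * m : ℕ) : ℝ)) :
    ((univ.filter fun π : Equiv.Perm (Fin n) => ∃ M ⊆ F, M.card = m ∧ Mt p1 p2 M ∧
      ∀ e ∈ M, R (π (p1 e)) (π (p2 e))).card : ℝ) ≤ n.factorial * ((F.card : ℝ) * ρ) ^ m := by
  have h1 : (univ.filter fun π : Equiv.Perm (Fin n) => ∃ M ⊆ F, M.card = m ∧ Mt p1 p2 M ∧
      ∀ e ∈ M, R (π (p1 e)) (π (p2 e))) ⊆ (F.powersetCard m).biUnion fun M =>
        univ.filter fun π : Equiv.Perm (Fin n) => Mt p1 p2 M ∧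
          ∀ e ∈ M, R (π (p1 e)) (π (p2 e)) := by
    intro π hπ
    obtain ⟨M, h2, h3, h4⟩ := (mem_filter.1 hπ).2
    exact mem_biUnion.2 ⟨M, mem_powersetCard.2 ⟨h2, h3⟩, mem_filter.2 ⟨mem_univ _, h4⟩⟩
  have h2 : ∀ M ∈ F.powersetCard m, ((univ.filter fun π : Equiv.Perm (Fin n) => Mt p1 p2 M ∧
      ∀ e ∈ M, R (π (p1 e)) (π (p2 e))).card : ℝ) ≤ n.factorial * ρ ^ m := by
    intro M hM
    have hMc := (mem_powersetCard.1 hM).2
    by_cases hm : Mt p1 p2 M
    · have h3 := mc hR p1 p2 M (fun e _ => p1_ne_p2 e)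
        (fun e he f hf hef => (hm e he f hf hef).2) ρ hρ (by rw [hMc]; exact hn)
        (by rw [hMc]; exact hd) (univ.filter fun π : Equiv.Perm (Fin n) => Mt p1 p2 M ∧
          ∀ e ∈ M, R (π (p1 e)) (π (p2 e))) (fun π hπ => (mem_filter.1 hπ).2.2)
      rwa [hMc] at h3
    · rw [filter_false_of_mem fun π _ h => hm h.1, card_empty, Nat.cast_zero]
      positivity
  calc _ ≤ (((F.powersetCard m).biUnion fun M => univ.filter fun π : Equiv.Perm (Fin n) =>
          Mt p1 p2 M ∧ ∀ e ∈ M, R (π (p1 e)) (π (p2 e))).card : ℝ) := by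
        exact_mod_cast card_le_card h1
    _ ≤ ∑ M ∈ F.powersetCard m, ((univ.filter fun π : Equiv.Perm (Fin n) =>
          Mt p1 p2 M ∧ ∀ e ∈ M, R (π (p1 e)) (π (p2 e))).card : ℝ) := by
        exact_mod_cast card_biUnion_le
    _ ≤ ∑ _M ∈ F.powersetCard m, (n.factorial * ρ ^ m : ℝ) := sum_le_sum h2
    _ = ((F.card.choose m : ℕ) : ℝ) * (n.factorial * ρ ^ m) := by
        rw [sum_const, card_powersetCard, nsmul_eq_mul]
    _ ≤ ((F.card : ℝ) ^ m) * (n.factorial * ρ ^ m) := by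
        refine mul_le_mul_of_nonneg_right ?_ (by positivity)
        exact_mod_cast Nat.choose_le_pow F.card m
    _ = _ := by rw [mul_pow]; ring

/-- the other endpoint -/
noncomputable def oth (v : Fin n) (e : Pairs n) : Fin n := if p1 e = v then p2 e else p1 e

theorem oth_ne {v : Fin n} {e : Pairs n} (h : p1 e = v ∨ p2 e = v) : oth v e ≠ v := by
  unfold oth
  split_ifs with h1
  · intro h2
    exact p1_ne_p2 e (h1.trans h2.symm)
  · exact h1

theorem oth_inj {v : Fin n} {e f : Pairs n} (he : p1 e = v ∨ p2 e = v)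
    (hf : p1 f = v ∨ p2 f = v) (h : oth v e = oth v f) : e = f := by
  have hlt : p1 e < p2 e := e.2
  have hlf : p1 f < p2 f := f.2
  unfold oth at h
  by_cases h1 : p1 e = v <;> by_cases h2 : p1 f = v
  · rw [if_pos h1, if_pos h2] at h
    exact Subtype.ext (Prod.ext (h1.trans h2.symm) h)
  · rw [if_pos h1, if_neg h2] at h
    have h3 := hf.resolve_left h2
    rw [h1, h] at hlt
    rw [h3] at hlf
    exact absurd (hlt.trans hlf) (lt_irrefl _)
  · rw [if_neg h1, if_pos h2] at h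
    have h3 := he.resolve_left h1
    rw [h3, h] at hlt
    rw [h2] at hlf
    exact absurd (hlt.trans hlf) (lt_irrefl _)
  · rw [if_neg h1, if_neg h2] at h
    exact Subtype.ext (Prod.ext h ((he.resolve_left h1).trans (hf.resolve_left h2).symm))

/-- stars -/
theorem card_star {R : Fin n → Fin n → Prop} {d : ℕ}
    (hR : ∀ a, ∀ S : Finset (Fin n), (∀ b ∈ S, R a b) → S.card ≤ d) (v : Fin n) (St : Finset (Pairs n))
    (hSt : ∀ e ∈ St, p1 e = v ∨ p2 e = v) (ρ : ℝ) (hρ : 0 ≤ ρ) (hn : 2 * St.card < n)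
    (hd : (d : ℝ) ≤ ρ * ((n - 2 * St.card : ℕ) : ℝ))
    (T : Finset (Equiv.Perm (Fin n))) (hT : ∀ π ∈ T, ∀ e ∈ St, R (π v) (π (oth v e))) :
    (T.card : ℝ) ≤ n.factorial * ρ ^ St.card :=
  mc hR (fun _ => v) (oth v) St (fun e he => (oth_ne (hSt e he)).symm)
    (fun e he f hf hef => ⟨oth_ne (hSt e he), fun h => hef (oth_inj (hSt e he) (hSt f hf) h)⟩)
    ρ hρ hn hd T hT

/-- matchings with hubs -/
theorem card_match {R : Fin n → Fin n → Prop} (hRs : ∀ a b, R a b → R b a) {Z₀ : Finset (Fin n)}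
    {d : ℕ} (hR : ∀ a, ∀ S : Finset (Fin n), (∀ b ∈ S, b ∈ Z₀ ∨ R a b) → S.card ≤ d) (M : Finset (Pairs n))
    (hM : Mt p1 p2 M) (ρ : ℝ) (hρ : 0 ≤ ρ) (hn : 2 * M.card < n)
    (hd : (d : ℝ) ≤ ρ * ((n - 2 * M.card : ℕ) : ℝ)) :
    ((univ.filter fun π : Equiv.Perm (Fin n) => ∀ e ∈ M, (π (p1 e) ∈ Z₀ ∨ π (p2 e) ∈ Z₀) ∨
      R (π (p1 e)) (π (p2 e))).card : ℝ) ≤ n.factorial * (2 * ρ) ^ M.card := by
  have h1 : (univ.filter fun π : Equiv.Perm (Fin n) => ∀ e ∈ M, (π (p1 e) ∈ Z₀ ∨ π (p2 e) ∈ Z₀) ∨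
      R (π (p1 e)) (π (p2 e))) ⊆ M.powerset.biUnion fun I =>
        univ.filter fun π : Equiv.Perm (Fin n) => ∀ e ∈ M,
          (π (if e ∈ I then p1 e else p2 e) ∈ Z₀ ∨
            R (π (if e ∈ I then p2 e else p1 e)) (π (if e ∈ I then p1 e else p2 e))) := by
    intro π hπ
    have h2 := (mem_filter.1 hπ).2
    refine mem_biUnion.2 ⟨M.filter fun e => π (p1 e) ∈ Z₀, mem_powerset.2 (filter_subset _ _),
      mem_filter.2 ⟨mem_univ _, fun e he => ?_⟩⟩
    by_cases h3 : π (p1 e) ∈ Z₀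
    · have h5 : e ∈ M.filter fun e => π (p1 e) ∈ Z₀ := mem_filter.2 ⟨he, h3⟩
      simp only [if_pos h5]
      exact Or.inl h3
    · have h5 : e ∉ M.filter fun e => π (p1 e) ∈ Z₀ := fun h => h3 (mem_filter.1 h).2
      simp only [if_neg h5]
      rcases h2 e he with (h4 | h4) | h4
      · exact absurd h4 h3
      · exact Or.inl h4
      · exact Or.inr h4
  have h2 : ∀ I ∈ M.powerset, ((univ.filter fun π : Equiv.Perm (Fin n) => ∀ e ∈ M,
          (π (if e ∈ I then p1 e else p2 e) ∈ Z₀ ∨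
            R (π (if e ∈ I then p2 e else p1 e)) (π (if e ∈ I then p1 e else p2 e)))).card : ℝ) ≤
      n.factorial * ρ ^ M.card := by
    intro I _
    refine mc (R := fun a b => b ∈ Z₀ ∨ R a b) hR (fun e : Pairs n => if e ∈ I then p2 e else p1 e)
      (fun e => if e ∈ I then p1 e else p2 e) M (fun e _ => ?_) (fun e he f hf hef => ?_)
      ρ hρ hn hd _ (fun π hπ => (mem_filter.1 hπ).2)
    · split_ifs
      · exact (p1_ne_p2 e).symm
      · exact p1_ne_p2 e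
    · have h3 := hM e he f hf hef
      constructor
      · split_ifs
        · exact h3.1.2
        · exact h3.1.1
        · exact h3.2.2
        · exact h3.2.1
      · split_ifs
        · exact h3.1.1
        · exact h3.1.2
        · exact h3.2.1
        · exact h3.2.2
  calc _ ≤ ((M.powerset.biUnion fun I => univ.filter fun π : Equiv.Perm (Fin n) => ∀ e ∈ M,
          (π (if e ∈ I then p1 e else p2 e) ∈ Z₀ ∨
            R (π (if e ∈ I then p2 e else p1 e)) (π (if e ∈ I then p1 e else p2 e)))).card : ℝ) := by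
        exact_mod_cast card_le_card h1
    _ ≤ ∑ I ∈ M.powerset, ((univ.filter fun π : Equiv.Perm (Fin n) => ∀ e ∈ M,
          (π (if e ∈ I then p1 e else p2 e) ∈ Z₀ ∨
            R (π (if e ∈ I then p2 e else p1 e))
              (π (if e ∈ I then p1 e else p2 e)))).card : ℝ) := by
        exact_mod_cast card_biUnion_le
    _ ≤ ∑ _I ∈ M.powerset, (n.factorial * ρ ^ M.card : ℝ) := sum_le_sum h2
    _ = ((2 ^ M.card : ℕ) : ℝ) * (n.factorial * ρ ^ M.card) := by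
        rw [sum_const, card_powerset, nsmul_eq_mul]
    _ = _ := by
        rw [mul_pow]
        push_cast
        ring

end Pool.Agent.J4H64.PC
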