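import Pool.Agent.J4H64.LD.Defs

set_option autoImplicit false

/-!
Conjunctions of adjacency bits and their negations, and linear combinations of conjunctions.
-/

namespace Pool.Agent.J4H64.PC

open DomAC0
open scoped Classical

/-- A conjunction: the pairs in the first set have to be adjacent, those in the second set not. -/
abbrev Conj (n : ℕ) : Type := Finset (Pairs n) × Finset (Pairs n)

/-- The conjunction `t` is true for the graph `G`. -/
def Tru {n : ℕ} (t : Conj n) (G : SimpleGraph (Fin n)) : Prop :=
  (∀ e ∈ t.1, G.Adj e.1.1 e.1.2) ∧ ∀ e ∈ t.2, ¬ G.Adj e.1.1 e.1.2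

/-- The value at `G` of a linear combination of conjunctions: the sum of the weights of the
conjunctions which are true for `G`. -/
noncomputable def pv {n : ℕ} (p : Conj n →₀ ℝ) (G : SimpleGraph (Fin n)) : ℝ :=
  p.sum fun t w => if Tru t G then w else 0

/-- After the removal of at most `ε n` vertices `G` is bipartite. -/
def NearBip {n : ℕ} (ε : ℝ) (G : SimpleGraph (Fin n)) : Prop :=
  ∃ Z : Finset (Fin n), (Z.card : ℝ) ≤ ε * n ∧
    ∃ c : Fin n → Bool, ∀ u v, u ∉ Z → v ∉ Z → G.Adj u v → c u ≠ c v

end Pool.Agent.J4H64.PC
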