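import Pool.Agent.J4H64.PC.Term
import Pool.Agent.J4H64.PC.Defs

set_option autoImplicit false
set_option linter.unusedSectionVars false
set_option linter.unusedVariables false

/-!
Adding hubs: for a good permutation a conjunction is true equally often in both cases.
-/

namespace Pool.Agent.J4H64.PC

open Finset DomAC0 Pool.Agent.J4H64.VC Pool.Agent.J4H64.LS
open scoped Classical

variable {n : ℕ}

/-- join the vertices in `Z` to all vertices -/
def hub (Z : Finset (Fin n)) (G : SimpleGraph (Fin n)) : SimpleGraph (Fin n) where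
  Adj a b := a ≠ b ∧ ((a ∈ Z ∨ b ∈ Z) ∨ G.Adj a b)
  symm := ⟨fun _ _ h => ⟨h.1.symm, h.2.imp Or.symm fun h' => h'.symm⟩⟩
  loopless := ⟨fun _ h => h.1 rfl⟩

/-- the hubs -/
noncomputable def Zp (Z₀ : Finset (Fin n)) (π : Equiv.Perm (Fin n)) : Finset (Fin n) :=
  univ.filter fun v => π v ∈ Z₀

theorem card_Zp (Z₀ : Finset (Fin n)) (π : Equiv.Perm (Fin n)) : (Zp Z₀ π).card ≤ Z₀.card := by
  refine card_le_card_of_injOn π ?_ (fun u _ v _ h => π.injective h)
  intro v hv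
  exact (mem_filter.1 hv).2

theorem hub_adj {Z₀ : Finset (Fin n)} {π : Equiv.Perm (Fin n)} {G : SimpleGraph (Fin n)}
    {e : Pairs n} : (hub (Zp Z₀ π) G).Adj e.1.1 e.1.2 ↔ Hb Z₀ π e ∨ G.Adj e.1.1 e.1.2 := by
  have h1 : ∀ v, v ∈ Zp Z₀ π ↔ π v ∈ Z₀ := by
    intro v
    unfold Zp
    rw [mem_filter]
    exact ⟨fun h => h.2, fun h => ⟨mem_univ _, h⟩⟩
  show (e.1.1 ≠ e.1.2 ∧ ((e.1.1 ∈ Zp Z₀ π ∨ e.1.2 ∈ Zp Z₀ π) ∨ G.Adj e.1.1 e.1.2)) ↔ _
  rw [h1, h1]
  exact ⟨fun h => h.2, fun h => ⟨ne_of_lt e.2, h⟩⟩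

theorem exact_eq {q : ℕ} {B : SimpleGraph (Fin q)} {R' : Type} [Fintype R'] {g m Δ : ℕ}
    (hT : Tree (sr B) (tg B) g)
    (hΔ : ∀ v, (univ.filter fun e => sr B e = v).card + (univ.filter fun e => tg B e = v).card ≤ Δ)
    (hg : 4 * Δ * m ≤ g) (κ : Fin q × Ps (Fin 1) R' ↪ Fin n) (Z₀ : Finset (Fin n))
    (π : Equiv.Perm (Fin n)) (t : Conj n)
    (hS : (∃ e ∈ t.1, ¬ Hb Z₀ π e ∧ ¬ Rel B κ (π (p1 e)) (π (p2 e))) ∨
      Nm (Rel B κ) m π (t.1.filter fun e => ¬ Hb Z₀ π e))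
    (hT' : (∃ e ∈ t.2, Hb Z₀ π e) ∨ Nm (Rel B κ) m π t.2)
    (inst : Fintype (Fin q → Equiv.Perm (Ps (Fin 1) R'))) :
    ((@univ _ inst).filter fun y =>
      Tru t (hub (Zp Z₀ π) (gr B (tw κ π) (mk (sr B) (tg B) (fun _ => false) y)))).card =
    ((@univ _ inst).filter fun y =>
      Tru t (hub (Zp Z₀ π) (gr B (tw κ π) (mk (sr B) (tg B) (fun _ => true) y)))).card := by
  rcases hS with ⟨e, he, h1, h2⟩ | hS
  · have key : ∀ ω, ¬ Tru t (hub (Zp Z₀ π) (gr B (tw κ π) ω)) := by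
      intro ω h
      rcases hub_adj.1 (h.1 e he) with h3 | h3
      · exact h1 h3
      · exact h2 (adj_rel κ π ω h3)
    rw [filter_false_of_mem fun y _ => key _, filter_false_of_mem fun y _ => key _]
  rcases hT' with ⟨e, he, h1⟩ | hT'
  · have key : ∀ ω, ¬ Tru t (hub (Zp Z₀ π) (gr B (tw κ π) ω)) := by
      intro ω h
      exact h.2 e he (hub_adj.2 (Or.inl h1))
    rw [filter_false_of_mem fun y _ => key _, filter_false_of_mem fun y _ => key _]
  have h1 := card_EE (κ := κ) (π := π) hΔ _ hS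
  have h2 := card_EE (κ := κ) (π := π) hΔ _ hT'
  refine count_eq hT (EE (B := B) κ π (t.1.filter fun e => ¬ Hb Z₀ π e) ∪ EE (B := B) κ π t.2) ?_
    (fun ω => Tru t (hub (Zp Z₀ π) (gr B (tw κ π) ω))) ?_ inst
  · refine (card_union_le _ _).trans ((add_le_add h1 h2).trans (le_trans (le_of_eq ?_) hg))
    ring
  · have key : ∀ ω ω' : Ed B → Equiv.Perm (Ps (Fin 1) R'),
        (∀ d ∈ EE (B := B) κ π (t.1.filter fun e => ¬ Hb Z₀ π e) ∪ EE (B := B) κ π t.2,
          ω d = ω' d) → Tru t (hub (Zp Z₀ π) (gr B (tw κ π) ω)) →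
        Tru t (hub (Zp Z₀ π) (gr B (tw κ π) ω')) := by
      intro ω ω' hω h
      constructor
      · intro e he
        by_cases h3 : Hb Z₀ π e
        · exact hub_adj.2 (Or.inl h3)
        · have h4 := (hub_adj.1 (h.1 e he)).resolve_left h3
          exact hub_adj.2 (Or.inr (adj_transfer (mem_filter.2 ⟨he, h3⟩)
            (fun d hd => hω d (mem_union_left _ hd)) h4))
      · intro e he h3
        apply h.2 e he
        rcases hub_adj.1 h3 with h4 | h4
        · exact hub_adj.2 (Or.inl h4)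
        · exact hub_adj.2 (Or.inr (adj_transfer he
            (fun d hd => (hω d (mem_union_right _ hd)).symm) h4))
    intro ω ω' hω
    exact ⟨key ω ω' hω, key ω' ω fun d hd => (hω d hd).symm⟩

end Pool.Agent.J4H64.PC
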