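import Mathlib

set_option autoImplicit false
set_option linter.unusedSectionVars false
set_option linter.unusedVariables false

/-!
Arithmetic.
-/

namespace Pool.Agent.J4H64.PC

open Filter

theorem large (T D K : ℕ) (hT : 18 ≤ T) (hD : 1 ≤ D) (hK : 1 ≤ K) (η : ℝ) (hη : 0 < η) :
    ∃ g₁ : ℕ, ∀ g ≥ g₁, (32 * (K : ℝ) ^ 2 * D * (g : ℝ) ^ 4) ^ 2 ≤ (T : ℝ) ^ g ∧
      8 * g * Real.log T ≤ (g : ℝ) ^ 2 ∧ 8 * D ≤ g ∧ 4 ≤ η * (g : ℝ) ^ 2 ∧ 1 ≤ g := by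
  have hTR : (18 : ℝ) ≤ T := by exact_mod_cast hT
  have hDR : (1 : ℝ) ≤ D := by exact_mod_cast hD
  have hKR : (1 : ℝ) ≤ K := by exact_mod_cast hK
  have h1 := tendsto_pow_const_div_const_pow_of_one_lt 8 (show (1 : ℝ) < T by linarith)
  have hpos : (0 : ℝ) < 1 / (32 * (K : ℝ) ^ 2 * D) ^ 2 := by positivity
  obtain ⟨N, hN⟩ := eventually_atTop.1 (h1.eventually_lt_const hpos)
  obtain ⟨a, ha⟩ := exists_nat_gt (8 * Real.log T)
  obtain ⟨b, hb⟩ := exists_nat_gt (4 / η)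
  refine ⟨N + a + b + 8 * D + 1, fun g hg => ?_⟩
  have hg1 : (1 : ℝ) ≤ g := by exact_mod_cast (by omega : 1 ≤ g)
  refine ⟨?_, ?_, by omega, ?_, by omega⟩
  · have h2 := hN g (by omega)
    have hTg : (0 : ℝ) < (T : ℝ) ^ g := by positivity
    rw [div_lt_iff₀ hTg] at h2
    have hc : (0 : ℝ) < (32 * (K : ℝ) ^ 2 * D) ^ 2 := by positivity
    have h3 := mul_le_mul_of_nonneg_left h2.le hc.le
    have h4 : (32 * (K : ℝ) ^ 2 * D) ^ 2 * (1 / (32 * (K : ℝ) ^ 2 * D) ^ 2 * (T : ℝ) ^ g) =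
        (T : ℝ) ^ g := by
      field_simp
    rw [h4] at h3
    calc (32 * (K : ℝ) ^ 2 * D * (g : ℝ) ^ 4) ^ 2 = (32 * (K : ℝ) ^ 2 * D) ^ 2 * (g : ℝ) ^ 8 := by
          ring
      _ ≤ _ := h3
  · have h2 : (a : ℝ) ≤ g := by exact_mod_cast (by omega : a ≤ g)
    nlinarith
  · have h2 : (b : ℝ) ≤ g := by exact_mod_cast (by omega : b ≤ g)
    have h3 : 4 / η < g := lt_of_lt_of_le hb h2
    rw [div_lt_iff₀ hη] at h3
    nlinarith

/-- the five probabilities -/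
theorem probs (g m T D K : ℕ) (hT : 18 ≤ T) (hD : 1 ≤ D) (hK : 60 ≤ K) (hg : 1 ≤ g)
    (hX : (32 * (K : ℝ) ^ 2 * D * (g : ℝ) ^ 4) ^ 2 ≤ (T : ℝ) ^ g)
    (hm : (g : ℝ) ≤ 8 * D * m) (n : ℕ) (hn : (n : ℝ) ≤ Real.exp ((g : ℝ) ^ 2)) (η : ℝ)
    (hη1 : η ≤ 1) (hη2 : η ≤ Real.log T / (16 * D)) :
    (1 - 1 / (4 * (K : ℝ))) ^ (4 * K * g ^ 2) ≤ Real.exp (-(η * (g : ℝ) ^ 2)) ∧
    ((((4 * K * g ^ 2 : ℕ) : ℝ) ^ 2 * (2 * D / (T : ℝ) ^ g))) ^ m ≤
      Real.exp (-(η * (g : ℝ) ^ 2)) ∧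
    (n : ℝ) * (3 / K) ^ (g ^ 2) ≤ Real.exp (-(η * (g : ℝ) ^ 2)) ∧
    (2 * (3 / (K : ℝ))) ^ (g ^ 2) ≤ Real.exp (-(η * (g : ℝ) ^ 2)) ∧
    ((2 * ((g ^ 2 : ℕ) : ℝ) ^ 2) * (2 * D / (T : ℝ) ^ g)) ^ m ≤
      Real.exp (-(η * (g : ℝ) ^ 2)) := by
  have hTR : (18 : ℝ) ≤ T := by exact_mod_cast hT
  have hDR : (1 : ℝ) ≤ D := by exact_mod_cast hD
  have hKR : (60 : ℝ) ≤ K := by exact_mod_cast hK
  have hgR : (1 : ℝ) ≤ g := by exact_mod_cast hg
  have hT0 : (0 : ℝ) < T := by linarith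
  have hlogT : 0 < Real.log T := Real.log_pos (by linarith)
  have hb : Real.exp (-((g : ℝ) ^ 2)) ≤ Real.exp (-(η * (g : ℝ) ^ 2)) := by
    apply Real.exp_le_exp.2
    have h1 : η * (g : ℝ) ^ 2 ≤ 1 * (g : ℝ) ^ 2 :=
      mul_le_mul_of_nonneg_right hη1 (by positivity)
    linarith
  have hK0 : (0 : ℝ) < K := by linarith
  -- the small quantity
  obtain ⟨E, hE⟩ : ∃ E : ℝ, E = Real.exp (g * Real.log T / 2) := ⟨_, rfl⟩
  have hE0 : 0 < E := by rw [hE]; exact Real.exp_pos _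
  have hE2 : E * E = (T : ℝ) ^ g := by
    rw [hE, ← Real.exp_add, add_halves, Real.exp_nat_mul, Real.exp_log hT0]
  obtain ⟨X, hXd⟩ : ∃ X : ℝ, X = 32 * (K : ℝ) ^ 2 * D * (g : ℝ) ^ 4 := ⟨_, rfl⟩
  have hX0 : 0 ≤ X := by rw [hXd]; positivity
  have hXE : X ≤ E := by
    rw [← hXd, ← hE2] at hX
    by_contra h
    push Not at h
    have := mul_self_lt_mul_self hE0.le h
    nlinarith
  have hsmall : ∀ z : ℝ, 0 ≤ z → z ≤ X → (z / (T : ℝ) ^ g) ^ m ≤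
      Real.exp (-(η * (g : ℝ) ^ 2)) := by
    intro z hz hzX
    have h1 : z / (T : ℝ) ^ g ≤ Real.exp (-(g * Real.log T / 2)) := by
      rw [Real.exp_neg, ← hE, ← hE2, div_le_iff₀ (by positivity)]
      have h2 : E⁻¹ * (E * E) = E := by field_simp
      rw [h2]
      exact hzX.trans hXE
    refine (pow_le_pow_left₀ (by positivity) h1 m).trans ?_
    rw [← Real.exp_nat_mul]
    apply Real.exp_le_exp.2
    have h2 : η * (g : ℝ) ^ 2 ≤ Real.log T / (16 * D) * (g : ℝ) ^ 2 :=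
      mul_le_mul_of_nonneg_right hη2 (by positivity)
    have h3 : Real.log T / (16 * D) * (g : ℝ) ^ 2 ≤ m * (g * Real.log T / 2) := by
      rw [div_mul_eq_mul_div, div_le_iff₀ (by positivity)]
      have h4 : (0 : ℝ) ≤ g * Real.log T := by positivity
      nlinarith [mul_le_mul_of_nonneg_right hm h4]
    linarith
  have he1 := Real.exp_one_gt_d9
  have he2 := Real.exp_one_lt_d9
  refine ⟨?_, ?_, ?_, ?_, ?_⟩
  · refine le_trans ?_ hb
    have h1 : 1 - 1 / (4 * (K : ℝ)) ≤ Real.exp (-(1 / (4 * (K : ℝ)))) :=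
      Real.one_sub_le_exp_neg _
    have h0 : 0 ≤ 1 - 1 / (4 * (K : ℝ)) := by
      have : 1 / (4 * (K : ℝ)) ≤ 1 := by
        rw [div_le_one (by positivity)]
        linarith
      linarith
    refine (pow_le_pow_left₀ h0 h1 _).trans ?_
    rw [← Real.exp_nat_mul]
    apply Real.exp_le_exp.2
    push_cast
    have h2 : 4 * (K : ℝ) * (g : ℝ) ^ 2 * -(1 / (4 * (K : ℝ))) = -((g : ℝ) ^ 2) := by
      field_simp
    rw [h2]
  · have h1 : ((4 * K * g ^ 2 : ℕ) : ℝ) ^ 2 * (2 * D / (T : ℝ) ^ g) = X / (T : ℝ) ^ g := by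
      rw [hXd]
      push_cast
      ring
    rw [h1]
    exact hsmall X hX0 le_rfl
  · refine le_trans ?_ hb
    have h1 : (3 : ℝ) / K ≤ Real.exp (-2) := by
      rw [div_le_iff₀ hK0]
      have h2 : Real.exp (-2) * Real.exp 2 = 1 := by rw [← Real.exp_add]; norm_num
      have h3 : Real.exp 2 = Real.exp 1 * Real.exp 1 := by rw [← Real.exp_add]; norm_num
      have h4 : Real.exp 2 ≤ 20 := by rw [h3]; nlinarith
      have h5 : 0 < Real.exp (-2) := Real.exp_pos _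
      have h6 : 1 ≤ Real.exp (-2) * 20 := by
        rw [← h2]
        exact mul_le_mul_of_nonneg_left h4 h5.le
      nlinarith
    calc (n : ℝ) * (3 / K) ^ (g ^ 2) ≤ Real.exp ((g : ℝ) ^ 2) * (Real.exp (-2)) ^ (g ^ 2) :=
          mul_le_mul hn (pow_le_pow_left₀ (by positivity) h1 _) (by positivity)
            (Real.exp_pos _).le
      _ = Real.exp (-((g : ℝ) ^ 2)) := by
          rw [← Real.exp_nat_mul, ← Real.exp_add]
          congr 1
          push_cast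
          ring
  · refine le_trans ?_ hb
    have h1 : 2 * ((3 : ℝ) / K) ≤ Real.exp (-1) := by
      rw [← mul_div_assoc, div_le_iff₀ hK0]
      have h2 : Real.exp (-1) * Real.exp 1 = 1 := by rw [← Real.exp_add]; norm_num
      have h5 : 0 < Real.exp (-1) := Real.exp_pos _
      have h6 : 1 ≤ Real.exp (-1) * 3 := by
        calc (1 : ℝ) = Real.exp (-1) * Real.exp 1 := h2.symm
          _ ≤ Real.exp (-1) * 3 := mul_le_mul_of_nonneg_left (by linarith) h5.le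
      nlinarith
    calc (2 * (3 / (K : ℝ))) ^ (g ^ 2) ≤ (Real.exp (-1)) ^ (g ^ 2) :=
          pow_le_pow_left₀ (by positivity) h1 _
      _ = Real.exp (-((g : ℝ) ^ 2)) := by
          rw [← Real.exp_nat_mul]
          congr 1
          push_cast
          ring
  · have h1 : (2 * ((g ^ 2 : ℕ) : ℝ) ^ 2) * (2 * D / (T : ℝ) ^ g) =
        (4 * D * (g : ℝ) ^ 4) / (T : ℝ) ^ g := by
      push_cast
      ring
    rw [h1]
    refine hsmall _ (by positivity) ?_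
    rw [hXd]
    have h2 : (0 : ℝ) ≤ D * (g : ℝ) ^ 4 := by positivity
    have h3 : (1 : ℝ) ≤ (K : ℝ) ^ 2 := by nlinarith
    nlinarith

end Pool.Agent.J4H64.PC
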