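import Pool.Agent.J4H64.PC.Exact
import Pool.Agent.J4H64.PC.Params
import Pool.Agent.J4H64.LS.Base

set_option autoImplicit false
set_option linter.unusedSectionVars false
set_option linter.unusedVariables false

/-!
Two random graphs on `n` vertices for which each of `n ^ (c log n)` given conjunctions is true with
the same probability.
-/

namespace Pool.Agent.J4H64.PC

open Finset DomAC0 Pool.Agent.J4H64.VC Pool.Agent.J4H64.LS Pool.Agent.J4H64.LD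
open scoped Classical

/-- the good permutation -/
theorem exists_good {n q : ℕ} {B : SimpleGraph (Fin q)} {P : Type} [Fintype P]
    (κ : Fin q × P ↪ Fin n) {d : ℕ} (hd : ∀ a, (univ.filter fun b => Rel B κ a b).card ≤ d)
    (g m T D K : ℕ) (hT : 18 ≤ T) (hD : 1 ≤ D) (hK : 60 ≤ K) (hg : 1 ≤ g)
    (hX : (32 * (K : ℝ) ^ 2 * D * (g : ℝ) ^ 4) ^ 2 ≤ (T : ℝ) ^ g)
    (hm : (g : ℝ) ≤ 8 * D * m) (hmg : m ≤ g) (hn : (n : ℝ) ≤ Real.exp ((g : ℝ) ^ 2))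
    (hnT : (T : ℝ) ^ g ≤ n) (hdT : (d : ℝ) * (T : ℝ) ^ g ≤ D * n) (η : ℝ)
    (hη1 : η ≤ 1) (hη2 : η ≤ Real.log T / (16 * D)) (hη4 : 4 ≤ η * (g : ℝ) ^ 2)
    (Z₀ : Finset (Fin n)) (hZ : Z₀.card = n / K)
    (𝓣 : Finset (Conj n)) (h𝓣 : (𝓣.card : ℝ) ≤ Real.exp (η * (g : ℝ) ^ 2 / 2)) :
    ∃ π : Equiv.Perm (Fin n), ∀ t ∈ 𝓣,
      ((∃ e ∈ t.1, ¬ Hb Z₀ π e ∧ ¬ Rel B κ (π (p1 e)) (π (p2 e))) ∨
        Nm (Rel B κ) m π (t.1.filter fun e => ¬ Hb Z₀ π e)) ∧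
      ((∃ e ∈ t.2, Hb Z₀ π e) ∨ Nm (Rel B κ) m π t.2) := by
  have hTR : (18 : ℝ) ≤ T := by exact_mod_cast hT
  have hDR : (1 : ℝ) ≤ D := by exact_mod_cast hD
  have hKR : (60 : ℝ) ≤ K := by exact_mod_cast hK
  have hgR : (1 : ℝ) ≤ g := by exact_mod_cast hg
  have hK0 : (0 : ℝ) < K := by linarith
  have hTg : (0 : ℝ) < (T : ℝ) ^ g := by positivity
  have hn0 : (0 : ℝ) ≤ n := Nat.cast_nonneg n
  -- `n` is large
  have hX1 : 32 * (K : ℝ) ^ 2 * (g : ℝ) ^ 2 ≤ 32 * (K : ℝ) ^ 2 * D * (g : ℝ) ^ 4 := by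
    have h1 : (g : ℝ) ^ 2 ≤ (g : ℝ) ^ 4 := pow_le_pow_right₀ hgR (by norm_num)
    have h2 : (0 : ℝ) ≤ 32 * (K : ℝ) ^ 2 := by positivity
    calc 32 * (K : ℝ) ^ 2 * (g : ℝ) ^ 2 ≤ 32 * (K : ℝ) ^ 2 * (g : ℝ) ^ 4 :=
          mul_le_mul_of_nonneg_left h1 h2
      _ = 32 * (K : ℝ) ^ 2 * 1 * (g : ℝ) ^ 4 := by ring
      _ ≤ 32 * (K : ℝ) ^ 2 * D * (g : ℝ) ^ 4 := by gcongr
  have hg2 : (1 : ℝ) ≤ (g : ℝ) ^ 2 := one_le_pow₀ hgR
  have hKK : (3600 : ℝ) ≤ (K : ℝ) ^ 2 := by nlinarith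
  have hbig : 1000 * (K : ℝ) ^ 2 * (g : ℝ) ^ 2 ≤ n := by
    refine le_trans ?_ hnT
    refine le_trans ?_ hX
    obtain ⟨X, hXd⟩ : ∃ X : ℝ, X = 32 * (K : ℝ) ^ 2 * D * (g : ℝ) ^ 4 := ⟨_, rfl⟩
    rw [← hXd] at hX1 ⊢
    have h1 : (1000 : ℝ) ≤ X := by nlinarith
    have h2 : (32 : ℝ) * (K : ℝ) ^ 2 ≤ X := by nlinarith
    nlinarith
  have hKg : (g : ℝ) ^ 2 * K ≤ (K : ℝ) ^ 2 * (g : ℝ) ^ 2 := by
    have h1 : (K : ℝ) ≤ (K : ℝ) ^ 2 := by nlinarith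
    rw [mul_comm]
    exact mul_le_mul_of_nonneg_right h1 (by positivity)
  have hDK : (D : ℝ) * K ≤ (T : ℝ) ^ g := by
    refine le_trans ?_ hX
    obtain ⟨X, hXd⟩ : ∃ X : ℝ, X = 32 * (K : ℝ) ^ 2 * D * (g : ℝ) ^ 4 := ⟨_, rfl⟩
    rw [← hXd]
    have h1 : (D : ℝ) * K ≤ X := by
      rw [hXd]
      have h2 : (1 : ℝ) ≤ (g : ℝ) ^ 4 := one_le_pow₀ hgR
      have h3 : (0 : ℝ) ≤ D * K := by positivity
      calc (D : ℝ) * K = D * K * 1 * 1 := by ring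
        _ ≤ D * K * (32 * K) * (g : ℝ) ^ 4 := by
            gcongr
            nlinarith
        _ = _ := by ring
    have h2 : (1 : ℝ) ≤ X := by nlinarith
    nlinarith
  -- the sizes
  obtain ⟨v₀, hv₀⟩ : ∃ v₀, v₀ = 4 * K * g ^ 2 := ⟨_, rfl⟩
  obtain ⟨t₀, ht₀⟩ : ∃ t₀, t₀ = g ^ 2 := ⟨_, rfl⟩
  have hv₀R : (v₀ : ℝ) = 4 * K * (g : ℝ) ^ 2 := by rw [hv₀]; push_cast; ring
  have ht₀R : (t₀ : ℝ) = (g : ℝ) ^ 2 := by rw [ht₀]; push_cast; ring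
  have hmR : (m : ℝ) ≤ g := by exact_mod_cast hmg
  have hvn : 2 * v₀ < n := by
    have h1 : (2 : ℝ) * v₀ < n := by rw [hv₀R]; nlinarith
    exact_mod_cast h1
  have htn : 2 * t₀ < n := by
    have h1 : (2 : ℝ) * t₀ < n := by rw [ht₀R]; nlinarith
    exact_mod_cast h1
  have hmn : 2 * m < n := by
    have h1 : (2 : ℝ) * m < n := by nlinarith
    exact_mod_cast h1
  have hhn : n / K ≤ n := Nat.div_le_self _ _
  have hh1 : ((n / K : ℕ) : ℝ) ≤ n / K := Nat.cast_div_le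
  have hh2 : (n : ℝ) / K - 1 ≤ ((n / K : ℕ) : ℝ) := by
    have h1 : n < K * (n / K + 1) := Nat.lt_mul_div_succ n (by omega)
    have h2 : (n : ℝ) < K * ((n / K : ℕ) + 1) := by exact_mod_cast h1
    rw [sub_le_iff_le_add, div_le_iff₀ hK0]
    linarith
  have hnK : (n : ℝ) / K * K = n := by field_simp
  -- the four inequalities
  have hd₁ : ((n - Z₀.card : ℕ) : ℝ) ≤ (1 - 1 / (4 * (K : ℝ))) * ((n - 2 * v₀ : ℕ) : ℝ) := by
    rw [hZ, Nat.cast_sub hhn, Nat.cast_sub hvn.le]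
    push_cast
    rw [hv₀R]
    obtain ⟨x, hx⟩ : ∃ x : ℝ, x = n / K := ⟨_, rfl⟩
    have hxn : (n : ℝ) = x * K := by rw [hx]; exact hnK.symm
    have h1 : (1 - 1 / (4 * (K : ℝ))) * (n - 2 * (4 * K * (g : ℝ) ^ 2)) =
        n - x / 4 - 8 * K * (g : ℝ) ^ 2 + 2 * (g : ℝ) ^ 2 := by
      rw [hxn]
      field_simp
      ring
    rw [h1]
    have h2 : 12 * (K : ℝ) * (g : ℝ) ^ 2 ≤ x := by
      rw [hx, le_div_iff₀ hK0]
      nlinarith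
    have h3 : (1 : ℝ) ≤ K * (g : ℝ) ^ 2 := by nlinarith
    rw [← hx] at hh2
    nlinarith
  have hd₂ : (d : ℝ) ≤ (2 * D / (T : ℝ) ^ g) * ((n - 2 * m : ℕ) : ℝ) := by
    rw [Nat.cast_sub hmn.le]
    push_cast
    rw [div_mul_eq_mul_div, le_div_iff₀ hTg]
    refine hdT.trans ?_
    have h1 : (n : ℝ) ≤ 2 * (n - 2 * m) := by nlinarith
    nlinarith
  have hd₃ : ((Z₀.card + d : ℕ) : ℝ) ≤ (3 / K) * ((n - 2 * t₀ : ℕ) : ℝ) := by
    rw [hZ, Nat.cast_sub htn.le]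
    push_cast
    rw [ht₀R]
    have h1 : (d : ℝ) ≤ n / K := by
      rw [le_div_iff₀ hK0]
      have h2 : (d : ℝ) * (D * K) ≤ D * n :=
        (mul_le_mul_of_nonneg_left hDK (Nat.cast_nonneg d)).trans hdT
      have h3 : (D : ℝ) * (d * K) ≤ D * n := by linarith
      exact le_of_mul_le_mul_left h3 (by linarith)
    have h2 : (3 : ℝ) / K * (n - 2 * (g : ℝ) ^ 2) = 3 * (n / K) - 6 * (g : ℝ) ^ 2 / K := by
      ring
    have h3 : 6 * (g : ℝ) ^ 2 / K ≤ n / K := by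
      apply div_le_div_of_nonneg_right _ hK0.le
      nlinarith
    rw [h2]
    linarith
  obtain ⟨q1, q2, q3, q4, q5⟩ := probs g m T D K hT hD hK hg hX hm n hn η hη1 hη2
  rw [← hv₀] at q1 q2
  rw [← ht₀] at q3 q4 q5
  have hRs : ∀ a b, Rel B κ a b → Rel B κ b a := by
    rintro a b ⟨u, v, p, p', h1, h2, h3⟩
    exact ⟨v, u, p', p, h2, h1, h3.symm⟩
  have hR : ∀ a, ∀ S : Finset (Fin n), (∀ b ∈ S, Rel B κ a b) → S.card ≤ d := fun a S hS =>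
    (card_le_card fun b hb => mem_filter.2 ⟨mem_univ _, hS b hb⟩).trans (hd a)
  have hρ₁ : 0 ≤ 1 - 1 / (4 * (K : ℝ)) := by
    have : 1 / (4 * (K : ℝ)) ≤ 1 := by
      rw [div_le_one (by positivity)]
      linarith
    linarith
  obtain ⟨β, hβ⟩ : ∃ β, β = Real.exp (-(η * (g : ℝ) ^ 2)) := ⟨_, rfl⟩
  rw [← hβ] at q1 q2 q3 q4 q5
  have key : ∀ t : Conj n, ∃ bad : Finset (Equiv.Perm (Fin n)),
      (bad.card : ℝ) ≤ n.factorial * (5 * β) ∧ ∀ π, π ∉ bad →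
      ((∃ e ∈ t.1, ¬ Hb Z₀ π e ∧ ¬ Rel B κ (π (p1 e)) (π (p2 e))) ∨
        Nm (Rel B κ) m π (t.1.filter fun e => ¬ Hb Z₀ π e)) ∧
      ((∃ e ∈ t.2, Hb Z₀ π e) ∨ Nm (Rel B κ) m π t.2) := by
    intro t
    obtain ⟨b1, h1, h2⟩ := bad_S hRs hR t₀ (2 * D / (T : ℝ) ^ g) (3 / K) (by positivity)
      (by positivity) htn hmn hd₂ hd₃ t.1
    obtain ⟨b2, h3, h4⟩ := bad_T hR v₀ (1 - 1 / (4 * (K : ℝ))) (2 * D / (T : ℝ) ^ g) hρ₁
      (by positivity) hvn hmn hd₁ hd₂ t.2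
    refine ⟨b1 ∪ b2, ?_, ?_⟩
    · have h5 : ((b1 ∪ b2).card : ℝ) ≤ b1.card + b2.card := by exact_mod_cast card_union_le _ _
      refine h5.trans ((add_le_add h1 h3).trans ?_)
      rw [← mul_add]
      refine mul_le_mul_of_nonneg_left ?_ (Nat.cast_nonneg _)
      linarith
    · intro π hπ
      rw [mem_union, not_or] at hπ
      exact ⟨h2 π hπ.1, h4 π hπ.2⟩
  choose bad hb1 hb2 using key
  by_contra hcon
  push Not at hcon
  have h2 : (univ : Finset (Equiv.Perm (Fin n))) ⊆ 𝓣.biUnion bad := by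
    intro π _
    obtain ⟨t, ht, h3⟩ := hcon π
    by_contra h4
    have h5 : π ∉ bad t := fun h => h4 (mem_biUnion.2 ⟨t, ht, h⟩)
    obtain ⟨h6, h7⟩ := hb2 t π h5
    have h8 := h3 h6
    rcases h7 with h7 | h7
    · obtain ⟨e, he, h7⟩ := h7
      exact h8.1 e he h7
    · exact h8.2 h7
  have h3 : (n.factorial : ℝ) ≤ ∑ t ∈ 𝓣, ((bad t).card : ℝ) := by
    have h4 := (card_le_card h2).trans card_biUnion_le
    rw [card_univ, Fintype.card_perm, Fintype.card_fin] at h4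
    exact_mod_cast h4
  have h4 : (n.factorial : ℝ) ≤ 𝓣.card * (n.factorial * (5 * β)) := by
    refine h3.trans ((sum_le_sum fun t _ => hb1 t).trans (le_of_eq ?_))
    rw [sum_const, nsmul_eq_mul]
  have hf : (0 : ℝ) < n.factorial := by exact_mod_cast Nat.factorial_pos n
  have h5 : (1 : ℝ) ≤ 𝓣.card * (5 * β) := by
    have h6 : (n.factorial : ℝ) * 1 ≤ n.factorial * (𝓣.card * (5 * β)) := by linarith
    exact le_of_mul_le_mul_left h6 hf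
  have hβ0 : 0 < β := by rw [hβ]; exact Real.exp_pos _
  have h6 : (𝓣.card : ℝ) * (5 * β) ≤ 5 * Real.exp (-(η * (g : ℝ) ^ 2 / 2)) := by
    calc (𝓣.card : ℝ) * (5 * β) ≤ Real.exp (η * (g : ℝ) ^ 2 / 2) * (5 * β) :=
          mul_le_mul_of_nonneg_right h𝓣 (by linarith)
      _ = 5 * (Real.exp (η * (g : ℝ) ^ 2 / 2) * β) := by ring
      _ = _ := by
          rw [hβ, ← Real.exp_add]
          congr 2
          ring
  have h7 : Real.exp (-(η * (g : ℝ) ^ 2 / 2)) ≤ Real.exp (-2) :=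
    Real.exp_le_exp.2 (by linarith)
  have h8 : 5 * Real.exp (-2) < 1 := by
    have h9 : Real.exp (-2) * Real.exp 2 = 1 := by rw [← Real.exp_add]; norm_num
    have h10 : Real.exp 2 = Real.exp 1 * Real.exp 1 := by rw [← Real.exp_add]; norm_num
    have h11 := Real.exp_one_gt_d9
    have h12 : 5 < Real.exp 2 := by rw [h10]; nlinarith
    have h13 : 0 < Real.exp (-2) := Real.exp_pos _
    calc 5 * Real.exp (-2) < Real.exp 2 * Real.exp (-2) := mul_lt_mul_of_pos_right h12 h13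
      _ = 1 := by rw [mul_comm]; exact h9
  linarith

end Pool.Agent.J4H64.PC
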