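import Pool.Agent.J4H64.VC.Gauge

set_option autoImplicit false
set_option linter.unusedSectionVars false

/-!
Events which depend on few edges of the base graph do not see the signature.
-/

namespace Pool.Agent.J4H64.PC

open Finset Pool.Agent.J4H64.VC
open scoped Classical

variable {V E C R : Type} [Fintype V] [Fintype E] [Fintype C] [Fintype R] {src tgt : E → V}

theorem gauge_edges {g₀ : ℕ} (hT : Tree src tgt g₀) (F : Finset E) (hF : F.card ≤ g₀) :
    ∃ θ : V → Equiv.Perm (Ps C R), ∀ e ∈ F, ∀ y : V → Equiv.Perm (Ps C R),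
      mk src tgt (fun _ => true) (y * θ) e = mk src tgt (fun _ => false) y e := by
  obtain ⟨b, hb⟩ := exists_bits hT F hF true
  let fl : Equiv.Perm (Ps C R) := sh fun _ => true
  have hfl : fl * fl = 1 := by
    ext p
    · rfl
    · rfl
    · show xor (xor p.b true) true = p.b
      simp
  have hinv : fl⁻¹ = fl := inv_eq_of_mul_eq_one_left hfl
  have h0 : (sh fun _ => false : Equiv.Perm (Ps C R)) = 1 := by
    ext p
    · rfl
    · rfl
    · show xor p.b false = p.b
      simp
  refine ⟨fun v => if b v then fl else 1, fun e he y => ?_⟩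
  have h3 : (if b (tgt e) then fl else 1) * fl * (if b (src e) then fl else 1)⁻¹ = 1 := by
    have h4 := hb e he
    simp only [h4]
    cases b (src e)
    · simp [hfl]
    · simp [hinv, hfl]
  show (y (tgt e) * (if b (tgt e) then fl else 1)) * fl *
    (y (src e) * (if b (src e) then fl else 1))⁻¹ =
      y (tgt e) * (sh fun _ => false) * (y (src e))⁻¹
  rw [h0, mul_one, mul_inv_rev]
  calc y (tgt e) * (if b (tgt e) then fl else 1) * fl *
        ((if b (src e) then fl else 1)⁻¹ * (y (src e))⁻¹)
      = y (tgt e) * ((if b (tgt e) then fl else 1) * fl * (if b (src e) then fl else 1)⁻¹) *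
        (y (src e))⁻¹ := by simp only [mul_assoc]
    _ = _ := by rw [h3, mul_one]

/-- Events which depend on few edges of the base graph do not see the signature. -/
theorem count_eq {g₀ : ℕ} (hT : Tree src tgt g₀) (F : Finset E) (hF : F.card ≤ g₀)
    (Q : (E → Equiv.Perm (Ps C R)) → Prop)
    (hQ : ∀ ω ω' : E → Equiv.Perm (Ps C R), (∀ e ∈ F, ω e = ω' e) → (Q ω ↔ Q ω'))
    (inst : Fintype (V → Equiv.Perm (Ps C R))) :
    ((@univ _ inst).filter fun y => Q (mk src tgt (fun _ => false) y)).card =
      ((@univ _ inst).filter fun y => Q (mk src tgt (fun _ => true) y)).card := by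
  obtain ⟨θ, hθ⟩ := gauge_edges (C := C) (R := R) hT F hF
  refine card_bij (fun y _ => y * θ) ?_ ?_ ?_
  · intro y hy
    rw [mem_filter] at hy ⊢
    exact ⟨mem_univ _, (hQ _ _ fun e he => (hθ e he y).symm).1 hy.2⟩
  · intro y _ y' _ h
    exact mul_right_cancel h
  · intro y hy
    refine ⟨y * θ⁻¹, ?_, by rw [inv_mul_cancel_right]⟩
    rw [mem_filter] at hy ⊢
    refine ⟨mem_univ _, (hQ _ _ fun e he => ?_).2 hy.2⟩
    have h1 := hθ e he (y * θ⁻¹)
    rw [inv_mul_cancel_right] at h1
    exact h1.symm

end Pool.Agent.J4H64.PC
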