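import Mathlib

set_option autoImplicit false
set_option linter.unusedSectionVars false

/-!
Maximal matchings.
-/

namespace Pool.Agent.J4H64.PC

open Finset
open scoped Classical

variable {ε α : Type} (x y : ε → α)

/-- no two edges have a common endpoint -/
def Mt (M : Finset ε) : Prop :=
  ∀ e ∈ M, ∀ f ∈ M, e ≠ f → (x e ≠ x f ∧ x e ≠ y f) ∧ y e ≠ x f ∧ y e ≠ y f

variable {x y}

theorem Mt.sub {M M' : Finset ε} (h : Mt x y M) (hM : M' ⊆ M) : Mt x y M' :=
  fun e he f hf hef => h e (hM he) f (hM hf) hef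

variable (x y)

/-- a maximal matching -/
theorem exists_mm (S : Finset ε) : ∃ M ⊆ S, Mt x y M ∧
    ∀ e ∈ S, ∃ f ∈ M, (x e = x f ∨ x e = y f) ∨ (y e = x f ∨ y e = y f) := by
  obtain ⟨M, hM, hmax⟩ := exists_max_image (S.powerset.filter (Mt x y)) card
    ⟨∅, mem_filter.2 ⟨empty_mem_powerset _, fun e he => absurd he (notMem_empty _)⟩⟩
  rw [mem_filter, mem_powerset] at hM
  obtain ⟨hMS, hMm⟩ := hM
  refine ⟨M, hMS, hMm, ?_⟩
  intro e he
  by_contra hcon
  push Not at hcon
  have heM : e ∉ M := fun h => (hcon e h).1.1 rfl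
  have h1 : Mt x y (insert e M) := by
    intro a ha b hb hab
    rcases mem_insert.1 ha with ha' | ha' <;> rcases mem_insert.1 hb with hb' | hb'
    · exact absurd (ha'.trans hb'.symm) hab
    · rw [ha']
      exact hcon b hb'
    · rw [hb']
      have := hcon a ha'
      exact ⟨⟨this.1.1.symm, this.2.1.symm⟩, this.1.2.symm, this.2.2.symm⟩
    · exact hMm a ha' b hb' hab
  have h2 := hmax (insert e M) (mem_filter.2 ⟨mem_powerset.2 (insert_subset he hMS), h1⟩)
  rw [card_insert_of_notMem heM] at h2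
  omega

/-- its size -/
theorem card_le_mm {S M : Finset ε} {D : ℕ}
    (hM : ∀ e ∈ S, ∃ f ∈ M, (x e = x f ∨ x e = y f) ∨ (y e = x f ∨ y e = y f))
    (hdeg : ∀ v, ∀ S' ⊆ S, (∀ e ∈ S', x e = v ∨ y e = v) → S'.card ≤ D) :
    S.card ≤ 2 * D * M.card := by
  have hX : (M.image x ∪ M.image y).card ≤ 2 * M.card := by
    have h1 := card_union_le (M.image x) (M.image y)
    have h2 : (M.image x).card ≤ M.card := card_image_le
    have h3 : (M.image y).card ≤ M.card := card_image_le
    omega
  calc S.card ≤ ((M.image x ∪ M.image y).biUnion fun v =>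
          S.filter fun e => x e = v ∨ y e = v).card := by
        refine card_le_card fun e he => ?_
        rw [mem_biUnion]
        obtain ⟨f, hf, h⟩ := hM e he
        have hx : x f ∈ M.image x ∪ M.image y := mem_union_left _ (mem_image_of_mem _ hf)
        have hy : y f ∈ M.image x ∪ M.image y := mem_union_right _ (mem_image_of_mem _ hf)
        rcases h with (h | h) | (h | h)
        · exact ⟨_, hx, mem_filter.2 ⟨he, Or.inl h⟩⟩
        · exact ⟨_, hy, mem_filter.2 ⟨he, Or.inl h⟩⟩
        · exact ⟨_, hx, mem_filter.2 ⟨he, Or.inr h⟩⟩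
        · exact ⟨_, hy, mem_filter.2 ⟨he, Or.inr h⟩⟩
    _ ≤ (M.image x ∪ M.image y).card * D := card_biUnion_le_card_mul _ _ _ fun v _ =>
        hdeg v _ (filter_subset _ _) fun e he => (mem_filter.1 he).2
    _ ≤ (2 * M.card) * D := Nat.mul_le_mul_right _ hX
    _ = _ := by ring

end Pool.Agent.J4H64.PC
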