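import Pool.Agent.J4H64.PC.Family

set_option autoImplicit false
set_option linter.unusedSectionVars false
set_option linter.unusedVariables false

/-!
The two random graphs.
-/

namespace Pool.Agent.J4H64.PC

open Finset DomAC0 Pool.Agent.J4H64.VC Pool.Agent.J4H64.LS Pool.Agent.J4H64.LD
open scoped Classical

theorem small_hub {n : ℕ} {ε : ℝ} (h1 : 1 ≤ ε * n) {G : SimpleGraph (Fin n)}
    (hG : ∀ I : Finset (Fin n), (∀ u ∈ I, ∀ v ∈ I, ¬ G.Adj u v) → (I.card : ℝ) ≤ ε * n)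
    (Z : Finset (Fin n)) : SmallInd ε (hub Z G) := by
  intro I hI
  by_cases hz : ∃ z ∈ I, z ∈ Z
  · obtain ⟨z, hzI, hzZ⟩ := hz
    have h2 : I ⊆ {z} := by
      intro u hu
      rw [mem_singleton]
      by_contra h
      exact hI z hzI u hu ⟨fun h' => h h'.symm, Or.inl (Or.inl hzZ)⟩
    have h3 : I.card ≤ 1 := (card_le_card h2).trans (card_singleton z).le
    have h4 : (I.card : ℝ) ≤ 1 := by exact_mod_cast h3
    linarith
  · push Not at hz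
    refine hG I fun u hu v hv h => hI u hu v hv ⟨G.ne_of_adj h, Or.inr h⟩

theorem near_hub {n : ℕ} {ε : ℝ} {G : SimpleGraph (Fin n)} (hG : G.Colorable 2)
    (Z : Finset (Fin n)) (hZ : (Z.card : ℝ) ≤ ε * n) : NearBip ε (hub Z G) := by
  obtain ⟨col⟩ := hG
  refine ⟨Z, hZ, fun u => decide (col u = 0), fun u v hu hv h => ?_⟩
  have h1 : G.Adj u v := by
    rcases h.2 with (h2 | h2) | h2
    · exact absurd h2 hu
    · exact absurd h2 hv
    · exact h2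
  have h2 := col.valid h1
  intro h3
  apply h2
  have h4 : col u = 0 ↔ col v = 0 := by
    have := decide_eq_decide.1 h3
    exact this
  apply Fin.ext
  by_cases h5 : col u = 0
  · rw [h5, h4.1 h5]
  · have h6 : col v ≠ 0 := fun h => h5 (h4.2 h)
    have h7 : (col u).val ≠ 0 := fun h => h5 (Fin.ext h)
    have h8 : (col v).val ≠ 0 := fun h => h6 (Fin.ext h)
    have h9 := (col u).isLt
    have h10 := (col v).isLt
    omega

theorem family (ε : ℝ) (hε : 0 < ε) : ∃ c : ℝ, 0 < c ∧ ∃ n₀ : ℕ, ∀ n ≥ n₀,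
    ∀ 𝓣 : Finset (Conj n), (𝓣.card : ℝ) ≤ Real.exp (c * Real.log n ^ 2) →
    ∃ (Ω : Type) (_ : Fintype Ω) (_ : Nonempty Ω) (G₀ G₁ : Ω → SimpleGraph (Fin n)),
      (∀ ω, SmallInd ε (G₀ ω)) ∧ (∀ ω, NearBip ε (G₁ ω)) ∧
      ∀ t ∈ 𝓣, (univ.filter fun ω => Tru t (G₀ ω)).card =
        (univ.filter fun ω => Tru t (G₁ ω)).card := by
  obtain ⟨k0, hk0⟩ := exists_nat_gt (2 / ε)
  have hk0' : 1 ≤ k0 := by
    have h1 : (0 : ℝ) < 2 / ε := by positivity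
    have h2 : (0 : ℝ) < k0 := h1.trans hk0
    exact_mod_cast h2
  obtain ⟨Δ, hΔ⟩ := LS.Base.exists_base k0 hk0'
  obtain ⟨T, hT⟩ : ∃ T, T = 2 * k0 * (8 * k0 + 1) := ⟨_, rfl⟩
  rw [← hT] at hΔ
  have hT18 : 18 ≤ T := by rw [hT]; nlinarith
  have hTR : (18 : ℝ) ≤ T := by exact_mod_cast hT18
  have hT0 : (0 : ℝ) < T := by linarith
  have hlogT : 0 < Real.log T := Real.log_pos (by linarith)
  obtain ⟨g1, hg1⟩ := pow_unbounded_of_one_lt (4 * (T : ℝ) ^ 7 / ε)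
    (show (1 : ℝ) < (T : ℝ) ^ 2 by nlinarith)
  obtain ⟨D, hD⟩ : ∃ D, D = Δ + 1 := ⟨_, rfl⟩
  have hD1 : 1 ≤ D := by omega
  have hDR : (1 : ℝ) ≤ D := by exact_mod_cast hD1
  have hDΔ : (Δ : ℝ) ≤ D := by exact_mod_cast (by omega : Δ ≤ D)
  obtain ⟨k1, hk1⟩ := exists_nat_gt (1 / ε)
  obtain ⟨K, hK⟩ : ∃ K, K = k1 + 60 := ⟨_, rfl⟩
  have hK60 : 60 ≤ K := by omega
  have hKR : (60 : ℝ) ≤ K := by exact_mod_cast hK60
  have hKε : 1 ≤ ε * K := by
    have h1 : 1 / ε < K := hk1.trans_le (by exact_mod_cast (by omega : k1 ≤ K))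
    rw [div_lt_iff₀ hε] at h1
    linarith
  obtain ⟨η, hη⟩ : ∃ η, η = min 1 (Real.log T / (16 * D)) := ⟨_, rfl⟩
  have hη0 : 0 < η := by rw [hη]; exact lt_min one_pos (by positivity)
  have hη1 : η ≤ 1 := by rw [hη]; exact min_le_left _ _
  have hη2 : η ≤ Real.log T / (16 * D) := by rw [hη]; exact min_le_right _ _
  obtain ⟨g2, hg2⟩ := large T D K hT18 hD1 (by omega) η hη0
  obtain ⟨c, hc⟩ : ∃ c, c = η / (128 * Real.log T ^ 2) := ⟨_, rfl⟩
  have hc0 : 0 < c := by rw [hc]; positivity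
  refine ⟨c, hc0, (T ^ 4) ^ (g1 + g2 + 1) + K, fun n hn 𝓣 h𝓣 => ?_⟩
  have hT4 : 1 < T ^ 4 := Nat.one_lt_pow (by norm_num) (by omega)
  have hn1 : 1 ≤ n := by omega
  have hnT : (T ^ 4) ^ (g1 + g2 + 1) ≤ n := by omega
  obtain ⟨g, hg⟩ : ∃ g, g = Nat.log (T ^ 4) n := ⟨_, rfl⟩
  have hgg : g1 + g2 + 1 ≤ g := by
    rw [hg]
    exact Nat.le_log_of_pow_le hT4 hnT
  obtain ⟨hX, hlog, hg8, hη4, hgone⟩ := hg2 g (by omega)
  have hg1' : (1 : ℝ) ≤ g := by exact_mod_cast hgone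
  have hgn : (T ^ 4) ^ g ≤ n := by
    rw [hg]
    exact Nat.pow_log_le_self _ (by omega)
  have hgn' : n < (T ^ 4) ^ (g + 1) := by
    rw [hg]
    exact Nat.lt_pow_succ_log_self hT4 n
  obtain ⟨q, B, hq, hql, hdeg, hgirth, hind⟩ := hΔ g
  have hTr := tree_of_girth hgirth
  have hq1 : 1 ≤ q := by
    have := hind ∅ (by simp)
    omega
  -- the number of copies
  obtain ⟨N, hN⟩ : ∃ N, N = n / (q * 2) := ⟨_, rfl⟩
  have hc1 : 1 ≤ q * 2 := by omega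
  have hNc : N * (q * 2) ≤ n := by rw [hN]; exact Nat.div_mul_le_self n _
  have hNc' : n < (N + 1) * (q * 2) := by
    rw [hN, mul_comm]; exact Nat.lt_mul_div_succ n hc1
  have hnR1 : (1 : ℝ) ≤ n := by exact_mod_cast hn1
  have hlogn : Real.log n < 4 * (g + 1) * Real.log T := by
    have h2 : (n : ℝ) < ((T : ℝ) ^ 4) ^ (g + 1) := by exact_mod_cast hgn'
    have h3 := Real.log_lt_log (by linarith) h2
    rw [← pow_mul, Real.log_pow] at h3
    push_cast at h3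
    linarith
  have hlogn0 : 0 ≤ Real.log n := Real.log_nonneg hnR1
  have hlogn8 : Real.log n ≤ 8 * g * Real.log T := by nlinarith
  have hnexp : (n : ℝ) ≤ Real.exp ((g : ℝ) ^ 2) := by
    rw [← Real.exp_log (show (0 : ℝ) < n by linarith)]
    exact Real.exp_le_exp.2 (hlogn8.trans hlog)
  have hnTg : (T : ℝ) ^ g ≤ n := by
    have h1 : T ^ g ≤ (T ^ 4) ^ g := Nat.pow_le_pow_left (Nat.le_self_pow (by norm_num) T) g
    exact_mod_cast h1.trans hgn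
  have hnK : K ≤ n := by omega
  have hεn : 1 ≤ ε * n := by
    have h1 : (K : ℝ) ≤ n := by exact_mod_cast hnK
    have h2 := mul_le_mul_of_nonneg_left h1 hε.le
    linarith
  -- `q` is small
  have hqn : ((q * 2 : ℕ) : ℝ) ≤ ε / 2 * n := by
    have h1 : ((q : ℕ) : ℝ) ≤ (T : ℝ) ^ (2 * g + 7) := by exact_mod_cast hq
    have h2 : ((T : ℝ) ^ 4) ^ g ≤ n := by exact_mod_cast hgn
    have h3 : ((T : ℝ) ^ 2) ^ g1 ≤ ((T : ℝ) ^ 2) ^ g :=
      pow_le_pow_right₀ (by nlinarith) (by omega)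
    have h4 : 4 * (T : ℝ) ^ 7 / ε < ((T : ℝ) ^ 2) ^ g := lt_of_lt_of_le hg1 h3
    rw [div_lt_iff₀ hε] at h4
    have h5 : (T : ℝ) ^ (2 * g + 7) = ((T : ℝ) ^ 2) ^ g * (T : ℝ) ^ 7 := by
      rw [pow_add, pow_mul]
    have h6 : ((T : ℝ) ^ 4) ^ g = ((T : ℝ) ^ 2) ^ g * ((T : ℝ) ^ 2) ^ g := by
      rw [← mul_pow]
      congr 1
      ring
    have h7 : (0 : ℝ) < ((T : ℝ) ^ 2) ^ g := by positivity
    push_cast
    rw [h5] at h1
    rw [h6] at h2
    calc (q : ℝ) * 2 ≤ (((T : ℝ) ^ 2) ^ g * (T : ℝ) ^ 7) * 2 :=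
          mul_le_mul_of_nonneg_right h1 (by norm_num)
      _ = ((T : ℝ) ^ 2) ^ g * (4 * (T : ℝ) ^ 7) / 2 := by ring
      _ ≤ ((T : ℝ) ^ 2) ^ g * (((T : ℝ) ^ 2) ^ g * ε) / 2 := by
          have := mul_le_mul_of_nonneg_left h4.le h7.le
          linarith
      _ = ε / 2 * (((T : ℝ) ^ 2) ^ g * ((T : ℝ) ^ 2) ^ g) := by ring
      _ ≤ ε / 2 * n := mul_le_mul_of_nonneg_left h2 (by positivity)
  -- the embedding
  have hcps : Fintype.card (Ps (Fin 1) (Fin N)) = N * 2 := by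
    rw [card_ps, Fintype.card_fin, Fintype.card_fin, one_mul]
  have hcard : Fintype.card (Fin q × Ps (Fin 1) (Fin N)) = N * (q * 2) := by
    rw [Fintype.card_prod, hcps, Fintype.card_fin]
    ring
  obtain ⟨κ₀⟩ : Nonempty (Fin q × Ps (Fin 1) (Fin N) ↪ Fin n) :=
    Function.Embedding.nonempty_of_card_le (by rw [hcard, Fintype.card_fin]; exact hNc)
  -- the size of the matchings
  obtain ⟨m, hm⟩ : ∃ m, m = g / (4 * D) := ⟨_, rfl⟩
  have hD0 : 0 < 4 * D := by omega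
  have hm1 : 4 * D * m ≤ g := by rw [hm]; exact Nat.mul_div_le g (4 * D)
  have hmΔ : 4 * Δ * m ≤ g := le_trans (Nat.mul_le_mul_right _ (by omega)) hm1
  have hmg : m ≤ g := le_trans (Nat.le_mul_of_pos_left m hD0) hm1
  have hm2 : (g : ℝ) ≤ 8 * D * m := by
    have h1 : g < 4 * D * (m + 1) := by rw [hm]; exact Nat.lt_mul_div_succ g hD0
    have h2 : (g : ℝ) < 4 * D * (m + 1) := by exact_mod_cast h1
    have h3 : (8 * (D : ℝ)) ≤ g := by exact_mod_cast hg8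
    linarith
  -- the relation
  have hdT : ((Δ * Fintype.card (Ps (Fin 1) (Fin N)) : ℕ) : ℝ) * (T : ℝ) ^ g ≤ D * n := by
    rw [hcps]
    have hqR : (T : ℝ) ^ g ≤ q := by exact_mod_cast hql
    calc ((Δ * (N * 2) : ℕ) : ℝ) * (T : ℝ) ^ g ≤ ((Δ * (N * 2) : ℕ) : ℝ) * q :=
          mul_le_mul_of_nonneg_left hqR (Nat.cast_nonneg _)
      _ = Δ * ((N * (q * 2) : ℕ) : ℝ) := by
          push_cast
          ring
      _ ≤ Δ * n := mul_le_mul_of_nonneg_left (by exact_mod_cast hNc) (Nat.cast_nonneg _)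
      _ ≤ D * n := mul_le_mul_of_nonneg_right hDΔ (Nat.cast_nonneg _)
  obtain ⟨Z₀, -, hZ₀⟩ := exists_subset_card_eq (s := (univ : Finset (Fin n))) (n := n / K)
    (by rw [card_univ, Fintype.card_fin]; exact Nat.div_le_self _ _)
  have h𝓣' : (𝓣.card : ℝ) ≤ Real.exp (η * (g : ℝ) ^ 2 / 2) := by
    refine h𝓣.trans (Real.exp_le_exp.2 ?_)
    have h2 : Real.log n ^ 2 ≤ (8 * g * Real.log T) ^ 2 := pow_le_pow_left₀ hlogn0 hlogn8 2
    refine (mul_le_mul_of_nonneg_left h2 hc0.le).trans (le_of_eq ?_)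
    rw [hc]
    field_simp
    ring
  obtain ⟨π, hπ⟩ := exists_good κ₀ (rel_card B κ₀ hdeg) g m T D K hT18 hD1 hK60 hgone hX hm2 hmg
    hnexp hnTg hdT η hη1 hη2 hη4 Z₀ hZ₀ 𝓣 h𝓣'
  have hZp : ((Zp Z₀ π).card : ℝ) ≤ ε * n := by
    have h1 : ((Zp Z₀ π).card : ℝ) ≤ ((n / K : ℕ) : ℝ) := by
      rw [← hZ₀]
      exact_mod_cast card_Zp Z₀ π
    have h2 : ((n / K : ℕ) : ℝ) ≤ n / K := Nat.cast_div_le
    have h3 : (n : ℝ) / K ≤ ε * n := by
      rw [div_le_iff₀ (by linarith)]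
      have h4 : (0 : ℝ) ≤ n := Nat.cast_nonneg n
      have h5 := mul_le_mul_of_nonneg_left hKε h4
      linarith
    linarith
  refine ⟨Fin q → Equiv.Perm (Ps (Fin 1) (Fin N)), inferInstance, ⟨1⟩,
    fun y => hub (Zp Z₀ π) (gr B (tw κ₀ π) (mk (sr B) (tg B) (fun _ => false) y)),
    fun y => hub (Zp Z₀ π) (gr B (tw κ₀ π) (mk (sr B) (tg B) (fun _ => true) y)), ?_,
    fun y => near_hub (colorable_one (tw κ₀ π) y) _ hZp,
    fun t ht => exact_eq hTr (deg_ed hdeg) hmΔ κ₀ Z₀ π t (hπ t ht).1 (hπ t ht).2 _⟩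
  -- independent sets
  intro y
  refine small_hub hεn (fun I hI => ?_) _
  have hα : ∀ I : Finset (Fin q), (∀ u ∈ I, ∀ v ∈ I, ¬ B.Adj u v) → I.card ≤ q / k0 := by
    intro I hI
    rw [Nat.le_div_iff_mul_le hk0', mul_comm]
    exact (hind I hI).le
  have h1 := cover_zero (tw κ₀ π) hα y Iᶜ (by
    intro u v huv
    by_contra hcon
    push Not at hcon
    rw [mem_compl, mem_compl, not_not, not_not] at hcon
    exact hI u hcon.1 v hcon.2 huv)
  rw [card_compl, Fintype.card_fin, hcps] at h1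
  have h2 : I.card ≤ n := (card_le_univ I).trans (by rw [Fintype.card_fin])
  have h3 : q / k0 ≤ q := Nat.div_le_self _ _
  have h4 : ((q / k0 : ℕ) : ℝ) ≤ q / k0 := Nat.cast_div_le
  have h5 : ((q : ℝ) - (q / k0 : ℕ)) * (N * 2) ≤ n - I.card := by
    have h6 : (((q - q / k0) * (N * 2) : ℕ) : ℝ) ≤ ((n - I.card : ℕ) : ℝ) := by
      exact_mod_cast h1
    rw [Nat.cast_sub h2] at h6
    push_cast [Nat.cast_sub h3] at h6
    exact h6
  have h7 : (n : ℝ) < (N + 1) * (q * 2) := by exact_mod_cast hNc'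
  have h8 : (N : ℝ) * (q * 2) ≤ n := by exact_mod_cast hNc
  have hk0R : (0 : ℝ) < k0 := by exact_mod_cast hk0'
  have h9 : ((q / k0 : ℕ) : ℝ) * (N * 2) ≤ n / k0 := by
    calc ((q / k0 : ℕ) : ℝ) * (N * 2) ≤ (q / k0) * (N * 2) := by gcongr
      _ = (N * (q * 2)) / k0 := by ring
      _ ≤ n / k0 := by gcongr
  have h10 : (n : ℝ) / k0 ≤ ε / 2 * n := by
    rw [div_le_iff₀ hk0R]
    have h11 : 2 / ε * (ε / 2) = 1 := by field_simp
    have h12 : 1 ≤ k0 * (ε / 2) := by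
      rw [← h11]
      exact mul_le_mul_of_nonneg_right hk0.le (by positivity)
    have h13 : (0 : ℝ) ≤ n := Nat.cast_nonneg n
    nlinarith
  push_cast at hqn
  nlinarith

end Pool.Agent.J4H64.PC
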