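import Pool.Agent.J4H64.LS.Sets
import Pool.Agent.J4H64.PC.MM
import Pool.Agent.J4H64.PC.Gauge

set_option autoImplicit false
set_option linter.unusedSectionVars false

/-!
The edges of the base graph below a set of pairs.
-/

namespace Pool.Agent.J4H64.PC

open Finset DomAC0 Pool.Agent.J4H64.VC Pool.Agent.J4H64.LS
open scoped Classical

variable {n q : ℕ} {B : SimpleGraph (Fin q)} {P : Type} [Fintype P] (κ : Fin q × P ↪ Fin n)
  (π : Equiv.Perm (Fin n))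

/-- the first and the second vertex of a pair -/
def p1 (e : Pairs n) : Fin n := e.1.1
def p2 (e : Pairs n) : Fin n := e.1.2

/-- the pair lies over the edge -/
def Ov (e : Pairs n) (d : Ed B) : Prop := ∃ p p' : P,
  (κ (sr B d, p) = π (p1 e) ∧ κ (tg B d, p') = π (p2 e)) ∨
  (κ (sr B d, p) = π (p2 e) ∧ κ (tg B d, p') = π (p1 e))

/-- the edges below `F` -/
noncomputable def EE (F : Finset (Pairs n)) : Finset (Ed B) :=
  univ.filter fun d => ∃ e ∈ F, Ov κ π e d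

variable {κ π}

theorem ov_rel {e : Pairs n} {d : Ed B} (h : Ov κ π e d) : Rel B κ (π (p1 e)) (π (p2 e)) := by
  obtain ⟨p, p', h | h⟩ := h
  · exact ⟨_, _, _, _, h.1, h.2, d.2.2⟩
  · exact ⟨_, _, _, _, h.2, h.1, d.2.2.symm⟩

/-- the types of the two vertices of a pair over an edge -/
theorem ov_types {e : Pairs n} {d : Ed B} (h : Ov κ π e d) :
    (∀ z, (z = p1 e ∨ z = p2 e) → ∃ p : P, κ (sr B d, p) = π z ∨ κ (tg B d, p) = π z) := by
  intro z hz
  obtain ⟨p, p', h | h⟩ := h <;> rcases hz with rfl | rfl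
  · exact ⟨p, Or.inl h.1⟩
  · exact ⟨p', Or.inr h.2⟩
  · exact ⟨p', Or.inr h.2⟩
  · exact ⟨p, Or.inl h.1⟩

theorem ov_ne {e e' : Pairs n} {d d' : Ed B} (h : Ov κ π e d) (h' : Ov κ π e' d')
    (hd : (sr B d ≠ sr B d' ∧ sr B d ≠ tg B d') ∧ tg B d ≠ sr B d' ∧ tg B d ≠ tg B d')
    (z z' : Fin n) (hz : z = p1 e ∨ z = p2 e) (hz' : z' = p1 e' ∨ z' = p2 e') : z ≠ z' := by
  rintro rfl
  obtain ⟨p, h1⟩ := ov_types h z hz
  obtain ⟨p', h2⟩ := ov_types h' z hz'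
  rcases h1 with h1 | h1 <;> rcases h2 with h2 | h2
  · exact hd.1.1 (Prod.ext_iff.1 (κ.injective (h1.trans h2.symm))).1
  · exact hd.1.2 (Prod.ext_iff.1 (κ.injective (h1.trans h2.symm))).1
  · exact hd.2.1 (Prod.ext_iff.1 (κ.injective (h1.trans h2.symm))).1
  · exact hd.2.2 (Prod.ext_iff.1 (κ.injective (h1.trans h2.symm))).1

/-- many edges below `F` give a large matching of pairs over edges in `F` -/
theorem card_EE {Δ m : ℕ}
    (hΔ : ∀ v, (univ.filter fun e => sr B e = v).card + (univ.filter fun e => tg B e = v).card ≤ Δ)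
    (F : Finset (Pairs n))
    (hF : ∀ M ⊆ F, M.card = m → Mt p1 p2 M → ∃ e ∈ M, ¬ Rel B κ (π (p1 e)) (π (p2 e))) :
    (EE (B := B) κ π F).card ≤ 2 * Δ * m := by
  obtain ⟨N, hN, hNm, hNt⟩ := exists_mm (sr B) (tg B) (EE (B := B) κ π F)
  have h1 := card_le_mm (sr B) (tg B) (D := Δ) hNt (by
    intro v S' _ hS'
    refine le_trans (card_le_card ?_) ((card_union_le _ _).trans (hΔ v))
    intro e he
    rw [mem_union, mem_filter, mem_filter]
    rcases hS' e he with h | h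
    · exact Or.inl ⟨mem_univ _, h⟩
    · exact Or.inr ⟨mem_univ _, h⟩)
  refine h1.trans (Nat.mul_le_mul_left _ ?_)
  by_contra hcon
  push Not at hcon
  obtain ⟨N', hN', hN'c⟩ := exists_subset_card_eq hcon.le
  have h2 : ∀ d ∈ N', ∃ e ∈ F, Ov κ π e d := fun d hd => (mem_filter.1 (hN (hN' hd))).2
  choose f hf hfo using h2
  have hinj : ∀ d (hd : d ∈ N') d' (hd' : d' ∈ N'), d ≠ d' → ∀ z z',
      (z = p1 (f d hd) ∨ z = p2 (f d hd)) → (z' = p1 (f d' hd') ∨ z' = p2 (f d' hd')) → z ≠ z' :=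
    fun d hd d' hd' hdd z z' hz hz' =>
      ov_ne (hfo d hd) (hfo d' hd') (hNm d (hN' hd) d' (hN' hd') hdd) z z' hz hz'
  have hinj' : ∀ d (hd : d ∈ N') d' (hd' : d' ∈ N'), f d hd = f d' hd' → d = d' := by
    intro d hd d' hd' h
    by_contra hdd
    exact hinj d hd d' hd' hdd _ _ (Or.inl rfl) (Or.inl rfl) (by rw [h])
  let f' : {d // d ∈ N'} → Pairs n := fun d => f d.1 d.2
  obtain ⟨M, hM⟩ : ∃ M, M = N'.attach.image f' := ⟨_, rfl⟩
  have a1 : M ⊆ F := by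
    intro e he
    rw [hM] at he
    obtain ⟨d, -, rfl⟩ := mem_image.1 he
    exact hf d.1 d.2
  have a2 : M.card = m := by
    rw [hM, card_image_of_injective, card_attach, hN'c]
    intro d d' h
    exact Subtype.ext (hinj' d.1 d.2 d'.1 d'.2 h)
  have a3 : Mt p1 p2 M := by
    intro e he e' he' hee
    rw [hM] at he he'
    obtain ⟨d, -, rfl⟩ := mem_image.1 he
    obtain ⟨d', -, rfl⟩ := mem_image.1 he'
    have hdd : d.1 ≠ d'.1 := fun h => hee (by rw [Subtype.ext h])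
    have key := hinj d.1 d.2 d'.1 d'.2 hdd
    exact ⟨⟨key _ _ (Or.inl rfl) (Or.inl rfl), key _ _ (Or.inl rfl) (Or.inr rfl)⟩,
      key _ _ (Or.inr rfl) (Or.inl rfl), key _ _ (Or.inr rfl) (Or.inr rfl)⟩
  obtain ⟨e, he, hr⟩ := hF M a1 a2 a3
  rw [hM] at he
  obtain ⟨d, -, rfl⟩ := mem_image.1 he
  exact hr (ov_rel (hfo d.1 d.2))

/-- the adjacency of a pair depends only on the edge below it -/
theorem adj_transfer {F : Finset (Pairs n)} {e : Pairs n} (he : e ∈ F)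
    {ω ω' : Ed B → Equiv.Perm P} (hω : ∀ d ∈ EE (B := B) κ π F, ω d = ω' d)
    (h : (gr B (tw κ π) ω).Adj e.1.1 e.1.2) : (gr B (tw κ π) ω').Adj e.1.1 e.1.2 := by
  rw [gr_adj] at h ⊢
  obtain ⟨d, x, h⟩ := h
  have h1 : Ov κ π e d := by
    rcases h with h | h
    · exact ⟨x, ω d x, Or.inl ⟨(Equiv.symm_apply_eq π).1 h.1, (Equiv.symm_apply_eq π).1 h.2⟩⟩
    · exact ⟨x, ω d x, Or.inr ⟨(Equiv.symm_apply_eq π).1 h.1, (Equiv.symm_apply_eq π).1 h.2⟩⟩
  have h2 : d ∈ EE (B := B) κ π F := mem_filter.2 ⟨mem_univ _, e, he, h1⟩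
  refine ⟨d, x, ?_⟩
  rw [← hω d h2]
  exact h

end Pool.Agent.J4H64.PC
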