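import Pool.Agent.J4H64.PC.Count

set_option autoImplicit false
set_option linter.unusedSectionVars false
set_option linter.unusedVariables false

/-!
The permutations which are bad for one conjunction.
-/

namespace Pool.Agent.J4H64.PC

open Finset DomAC0 Pool.Agent.J4H64.VC Pool.Agent.J4H64.LS
open scoped Classical

variable {n : ℕ}

/-- a vertex of the pair is a hub -/
def Hb (Z₀ : Finset (Fin n)) (π : Equiv.Perm (Fin n)) (e : Pairs n) : Prop :=
  π (p1 e) ∈ Z₀ ∨ π (p2 e) ∈ Z₀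

/-- no compatible matching with `m` pairs in `F` -/
def Nm (R : Fin n → Fin n → Prop) (m : ℕ) (π : Equiv.Perm (Fin n)) (F : Finset (Pairs n)) : Prop :=
  ∀ M ⊆ F, M.card = m → Mt p1 p2 M → ∃ e ∈ M, ¬ R (π (p1 e)) (π (p2 e))

variable {R : Fin n → Fin n → Prop} {Z₀ : Finset (Fin n)} {d m : ℕ}

theorem bad_T (hR : ∀ a, ∀ S : Finset (Fin n), (∀ b ∈ S, R a b) → S.card ≤ d)
    (v₀ : ℕ) (ρ₁ ρ₂ : ℝ) (hρ₁ : 0 ≤ ρ₁) (hρ₂ : 0 ≤ ρ₂) (hn₁ : 2 * v₀ < n) (hn₂ : 2 * m < n)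
    (hd₁ : ((n - Z₀.card : ℕ) : ℝ) ≤ ρ₁ * ((n - 2 * v₀ : ℕ) : ℝ))
    (hd₂ : (d : ℝ) ≤ ρ₂ * ((n - 2 * m : ℕ) : ℝ)) (T : Finset (Pairs n)) :
    ∃ bad : Finset (Equiv.Perm (Fin n)),
      (bad.card : ℝ) ≤ n.factorial * (ρ₁ ^ v₀ + ((v₀ : ℝ) ^ 2 * ρ₂) ^ m) ∧
      ∀ π, π ∉ bad → (∃ e ∈ T, Hb Z₀ π e) ∨ Nm R m π T := by
  obtain ⟨U, hU⟩ : ∃ U, U = T.image p1 ∪ T.image p2 := ⟨_, rfl⟩
  rcases Nat.lt_or_ge U.card v₀ with h | h
  · -- few vertices
    refine ⟨univ.filter fun π : Equiv.Perm (Fin n) => ∃ M ⊆ T, M.card = m ∧ Mt p1 p2 M ∧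
      ∀ e ∈ M, R (π (p1 e)) (π (p2 e)), ?_, ?_⟩
    · refine (card_small hR T m ρ₂ hρ₂ hn₂ hd₂).trans (mul_le_mul_of_nonneg_left ?_
        (Nat.cast_nonneg _))
      have h1 : T.card ≤ v₀ ^ 2 := by
        have h2 : T.card ≤ (U ×ˢ U).card := by
          refine card_le_card_of_injOn (fun e => (p1 e, p2 e)) ?_ ?_
          · intro e he
            rw [mem_coe, mem_product, hU]
            exact ⟨mem_union_left _ (mem_image_of_mem _ he),
              mem_union_right _ (mem_image_of_mem _ he)⟩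
          · intro e _ f _ hef
            rw [Prod.mk.injEq] at hef
            exact Subtype.ext (Prod.ext hef.1 hef.2)
        rw [card_product] at h2
        nlinarith
      have h2 : (T.card : ℝ) * ρ₂ ≤ (v₀ : ℝ) ^ 2 * ρ₂ :=
        mul_le_mul_of_nonneg_right (by exact_mod_cast h1) hρ₂
      have h3 : ((T.card : ℝ) * ρ₂) ^ m ≤ ((v₀ : ℝ) ^ 2 * ρ₂) ^ m :=
        pow_le_pow_left₀ (by positivity) h2 m
      have h4 : 0 ≤ ρ₁ ^ v₀ := by positivity
      linarith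
    · intro π hπ
      right
      intro M hM hMc hMm
      by_contra hcon
      push Not at hcon
      exact hπ (mem_filter.2 ⟨mem_univ _, M, hM, hMc, hMm, hcon⟩)
  · -- many vertices
    obtain ⟨U', hU', hUc⟩ := exists_subset_card_eq h
    refine ⟨univ.filter fun π : Equiv.Perm (Fin n) => ∀ u ∈ U', π u ∉ Z₀, ?_, ?_⟩
    · have h1 := card_avoid Z₀ U' ρ₁ hρ₁ (by rw [hUc]; exact hn₁) (by rw [hUc]; exact hd₁)
      rw [hUc] at h1
      refine h1.trans (mul_le_mul_of_nonneg_left ?_ (Nat.cast_nonneg _))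
      have h4 : 0 ≤ ((v₀ : ℝ) ^ 2 * ρ₂) ^ m := by positivity
      linarith
    · intro π hπ
      left
      by_contra hcon
      push Not at hcon
      refine hπ (mem_filter.2 ⟨mem_univ _, fun u hu => ?_⟩)
      have h2 := hU' hu
      rw [hU] at h2
      intro hz
      rcases mem_union.1 h2 with h2 | h2
      · obtain ⟨e, he, rfl⟩ := mem_image.1 h2
        exact hcon e he (Or.inl hz)
      · obtain ⟨e, he, rfl⟩ := mem_image.1 h2
        exact hcon e he (Or.inr hz)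

theorem bad_S (hRs : ∀ a b, R a b → R b a)
    (hR : ∀ a, ∀ S : Finset (Fin n), (∀ b ∈ S, R a b) → S.card ≤ d)
    (t : ℕ) (ρ₂ ρ₃ : ℝ) (hρ₂ : 0 ≤ ρ₂) (hρ₃ : 0 ≤ ρ₃) (hn₁ : 2 * t < n) (hn₂ : 2 * m < n)
    (hd₂ : (d : ℝ) ≤ ρ₂ * ((n - 2 * m : ℕ) : ℝ))
    (hd₃ : ((Z₀.card + d : ℕ) : ℝ) ≤ ρ₃ * ((n - 2 * t : ℕ) : ℝ)) (S : Finset (Pairs n)) :
    ∃ bad : Finset (Equiv.Perm (Fin n)),
      (bad.card : ℝ) ≤ n.factorial * (n * ρ₃ ^ t + (2 * ρ₃) ^ t + ((2 * (t : ℝ) ^ 2) * ρ₂) ^ m) ∧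
      ∀ π, π ∉ bad → (∃ e ∈ S, ¬ Hb Z₀ π e ∧ ¬ R (π (p1 e)) (π (p2 e))) ∨
        Nm R m π (S.filter fun e => ¬ Hb Z₀ π e) := by
  -- the relation with hubs
  have hR₂ : ∀ a, ∀ X : Finset (Fin n), (∀ b ∈ X, b ∈ Z₀ ∨ R a b) → X.card ≤ Z₀.card + d := by
    intro a X hX
    calc X.card ≤ (Z₀ ∪ univ.filter fun b => R a b).card := by
          refine card_le_card fun b hb => ?_
          rcases hX b hb with h | h
          · exact mem_union_left _ h
          · exact mem_union_right _ (mem_filter.2 ⟨mem_univ _, h⟩)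
      _ ≤ _ := (card_union_le _ _).trans (Nat.add_le_add_left
        (hR a _ fun b hb => (mem_filter.1 hb).2) _)
  -- vertices of large degree
  obtain ⟨Hi, hHi⟩ : ∃ Hi : Finset (Fin n),
      Hi = univ.filter fun v => t ≤ (S.filter fun e => p1 e = v ∨ p2 e = v).card := ⟨_, rfl⟩
  have hst : ∀ v ∈ Hi, ∃ St ⊆ S.filter (fun e => p1 e = v ∨ p2 e = v), St.card = t := by
    intro v hv
    rw [hHi] at hv
    exact exists_subset_card_eq (mem_filter.1 hv).2
  choose St hSt hStc using hst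
  let b1 : Finset (Equiv.Perm (Fin n)) := Hi.attach.biUnion fun v =>
    univ.filter fun π : Equiv.Perm (Fin n) => ∀ e ∈ St v.1 v.2,
      π (oth v.1 e) ∈ Z₀ ∨ R (π v.1) (π (oth v.1 e))
  have hb1 : (b1.card : ℝ) ≤ n.factorial * (n * ρ₃ ^ t) := by
    calc (b1.card : ℝ) ≤ ∑ v ∈ Hi.attach, ((univ.filter fun π : Equiv.Perm (Fin n) =>
          ∀ e ∈ St v.1 v.2, π (oth v.1 e) ∈ Z₀ ∨ R (π v.1) (π (oth v.1 e))).card : ℝ) := by
          exact_mod_cast card_biUnion_le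
      _ ≤ ∑ _v ∈ Hi.attach, (n.factorial * ρ₃ ^ t : ℝ) := by
          refine sum_le_sum fun v _ => ?_
          have h1 := card_star (R := fun a b => b ∈ Z₀ ∨ R a b) hR₂ v.1 (St v.1 v.2)
            (fun e he => (mem_filter.1 (hSt v.1 v.2 he)).2) ρ₃ hρ₃
            (by rw [hStc]; exact hn₁) (by rw [hStc]; exact hd₃)
            (univ.filter fun π : Equiv.Perm (Fin n) => ∀ e ∈ St v.1 v.2,
              π (oth v.1 e) ∈ Z₀ ∨ R (π v.1) (π (oth v.1 e)))
            (fun π hπ => (mem_filter.1 hπ).2)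
          rwa [hStc] at h1
      _ = Hi.card * (n.factorial * ρ₃ ^ t) := by rw [sum_const, card_attach, nsmul_eq_mul]
      _ ≤ n * (n.factorial * ρ₃ ^ t) := by
          refine mul_le_mul_of_nonneg_right ?_ (by positivity)
          exact_mod_cast (card_le_univ Hi).trans (by rw [Fintype.card_fin])
      _ = _ := by ring
  have hb1' : ∀ π, π ∉ b1 → ∀ v ∈ Hi, π v ∈ Z₀ ∨
      ∃ e ∈ S, ¬ Hb Z₀ π e ∧ ¬ R (π (p1 e)) (π (p2 e)) := by
    intro π hπ v hv
    by_contra hcon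
    push Not at hcon
    refine hπ (mem_biUnion.2 ⟨⟨v, hv⟩, mem_attach _ _, mem_filter.2 ⟨mem_univ _, fun e he => ?_⟩⟩)
    have h1 := mem_filter.1 (hSt v hv he)
    show π (oth v e) ∈ Z₀ ∨ R (π v) (π (oth v e))
    by_contra h2
    push Not at h2
    have h3 : ¬ Hb Z₀ π e := by
      rintro (h4 | h4)
      · by_cases h5 : p1 e = v
        · rw [h5] at h4
          exact hcon.1 h4
        · have h6 : oth v e = p1 e := by unfold oth; rw [if_neg h5]
          rw [h6] at h2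
          exact h2.1 h4
      · by_cases h5 : p1 e = v
        · have h6 : oth v e = p2 e := by unfold oth; rw [if_pos h5]
          rw [h6] at h2
          exact h2.1 h4
        · rw [h1.2.resolve_left h5] at h4
          exact hcon.1 h4
    have h4 := hcon.2 e h1.1 h3
    by_cases h5 : p1 e = v
    · have h6 : oth v e = p2 e := by unfold oth; rw [if_pos h5]
      rw [h6] at h2
      rw [h5] at h4
      exact h2.2 h4
    · have h6 : oth v e = p1 e := by unfold oth; rw [if_neg h5]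
      rw [h6] at h2
      rw [h1.2.resolve_left h5] at h4
      exact h2.2 (hRs _ _ h4)
  -- the rest
  obtain ⟨S₂, hS₂⟩ : ∃ S₂, S₂ = S.filter fun e => p1 e ∉ Hi ∧ p2 e ∉ Hi := ⟨_, rfl⟩
  obtain ⟨M, hM, hMm, hMt⟩ := exists_mm p1 p2 S₂
  have hsub : ∀ π, (∀ v ∈ Hi, π v ∈ Z₀) → (S.filter fun e => ¬ Hb Z₀ π e) ⊆ S₂ := by
    intro π hπ e he
    obtain ⟨h1, h2⟩ := mem_filter.1 he
    rw [hS₂, mem_filter]
    exact ⟨h1, fun h3 => h2 (Or.inl (hπ _ h3)), fun h3 => h2 (Or.inr (hπ _ h3))⟩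
  rcases Nat.lt_or_ge M.card t with hMc | hMc
  · -- `S₂` is small
    let b2 : Finset (Equiv.Perm (Fin n)) := univ.filter fun π : Equiv.Perm (Fin n) =>
      ∃ M ⊆ S₂, M.card = m ∧ Mt p1 p2 M ∧ ∀ e ∈ M, R (π (p1 e)) (π (p2 e))
    have hb2 : (b2.card : ℝ) ≤ n.factorial * ((2 * (t : ℝ) ^ 2) * ρ₂) ^ m := by
      refine (card_small hR S₂ m ρ₂ hρ₂ hn₂ hd₂).trans (mul_le_mul_of_nonneg_left ?_
        (Nat.cast_nonneg _))
      have h1 : S₂.card ≤ 2 * t ^ 2 := by
        have h2 := card_le_mm p1 p2 (D := t) hMt (by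
          intro v S' hS' hv
          by_cases hvH : v ∈ Hi
          · have h3 : S' = ∅ := by
              rw [eq_empty_iff_forall_notMem]
              intro e he
              have h4 := hS' he
              rw [hS₂, mem_filter] at h4
              rcases hv e he with h5 | h5
              · exact h4.2.1 (h5 ▸ hvH)
              · exact h4.2.2 (h5 ▸ hvH)
            rw [h3, card_empty]
            exact Nat.zero_le _
          · rw [hHi, mem_filter, not_and, not_le] at hvH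
            refine le_trans (card_le_card fun e he => ?_) (hvH (mem_univ _)).le
            have h4 := hS' he
            rw [hS₂, mem_filter] at h4
            exact mem_filter.2 ⟨h4.1, hv e he⟩)
        nlinarith
      have h2 : (S₂.card : ℝ) * ρ₂ ≤ (2 * (t : ℝ) ^ 2) * ρ₂ :=
        mul_le_mul_of_nonneg_right (by exact_mod_cast h1) hρ₂
      exact pow_le_pow_left₀ (by positivity) h2 m
    refine ⟨b1 ∪ b2, ?_, ?_⟩
    · have h1 : ((b1 ∪ b2).card : ℝ) ≤ b1.card + b2.card := by exact_mod_cast card_union_le _ _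
      have h2 : 0 ≤ (n.factorial : ℝ) * (2 * ρ₃) ^ t := by positivity
      linarith
    · intro π hπ
      rw [mem_union, not_or] at hπ
      by_cases hdead : ∃ e ∈ S, ¬ Hb Z₀ π e ∧ ¬ R (π (p1 e)) (π (p2 e))
      · exact Or.inl hdead
      · right
        have h1 : ∀ v ∈ Hi, π v ∈ Z₀ := fun v hv => (hb1' π hπ.1 v hv).resolve_right hdead
        intro M' hM' hMc' hMm'
        by_contra hcon
        push Not at hcon
        exact hπ.2 (mem_filter.2 ⟨mem_univ _, M', hM'.trans (hsub π h1), hMc', hMm', hcon⟩)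
  · -- a large matching
    obtain ⟨M', hM', hMc'⟩ := exists_subset_card_eq hMc
    let b2 : Finset (Equiv.Perm (Fin n)) := univ.filter fun π : Equiv.Perm (Fin n) =>
      ∀ e ∈ M', (π (p1 e) ∈ Z₀ ∨ π (p2 e) ∈ Z₀) ∨ R (π (p1 e)) (π (p2 e))
    have hb2 : (b2.card : ℝ) ≤ n.factorial * (2 * ρ₃) ^ t := by
      have h1 := card_match hRs hR₂ M' (hMm.sub hM') ρ₃ hρ₃ (by rw [hMc']; exact hn₁)
        (by rw [hMc']; exact hd₃)
      rwa [hMc'] at h1
    refine ⟨b1 ∪ b2, ?_, ?_⟩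
    · have h1 : ((b1 ∪ b2).card : ℝ) ≤ b1.card + b2.card := by exact_mod_cast card_union_le _ _
      have h2 : 0 ≤ (n.factorial : ℝ) * ((2 * (t : ℝ) ^ 2) * ρ₂) ^ m := by positivity
      linarith
    · intro π hπ
      rw [mem_union, not_or] at hπ
      left
      by_contra hcon
      push Not at hcon
      refine hπ.2 (mem_filter.2 ⟨mem_univ _, fun e he => ?_⟩)
      by_cases h1 : Hb Z₀ π e
      · exact Or.inl h1
      · have h2 := hM (hM' he)
        rw [hS₂] at h2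
        exact Or.inr (hcon e (mem_filter.1 h2).1 h1)

end Pool.Agent.J4H64.PC
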